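import Pool.Agent.Helper66.AF.ZP

/-!
# Mertens' second theorem with an error `O(1)` and a lower bound for `∑ cos (t log p) / p`
-/

set_option autoImplicit false

namespace Pool.Agent.Helper66.AF

open Finset Pool.Agent.Helper5.RM

lemma one_le_log {y : ℕ} (hy : 3 ≤ y) : 1 ≤ Real.log y := by
  have hy0 : (3 : ℝ) ≤ y := by exact_mod_cast hy
  rw [Real.le_log_iff_exp_le (by linarith)]
  linarith [Real.exp_one_lt_d9]

/-- Mertens, upper bound -/
theorem mertens_upper : ∃ C : ℝ, 0 ≤ C ∧ ∀ y : ℕ, 3 ≤ y → ∑ p ∈ PP y, (1 : ℝ) / p ≤ Real.log (Real.log y) + C := by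
  refine ⟨Real.log 18 + CA, add_nonneg (Real.log_nonneg (by norm_num)) CA_nonneg, fun y hy => ?_⟩
  have hL := one_le_log hy
  have hL0 : 0 < Real.log y := by linarith
  have h1 := (zeta_near hy 0).1
  have h2 := zeta_upper (σ := 1 + 1 / Real.log y) (t := 0) (by have : 0 < 1 / Real.log y := by positivity
                                                               linarith)
    (by have : 1 / Real.log y ≤ 1 := (div_le_one hL0).2 hL
        linarith)
  rw [norm_mul] at h2
  have n0 : ‖(((1 + 1 / Real.log y : ℝ) : ℂ)) + ((0:ℝ) : ℂ) * Complex.I - 1‖ = 1 / Real.log y := by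
    rw [show (((1 + 1 / Real.log y : ℝ) : ℂ)) + ((0:ℝ) : ℂ) * Complex.I - 1 = (((1 / Real.log y : ℝ)) : ℂ) by push_cast; ring,
      Complex.norm_real, Real.norm_of_nonneg (by positivity)]
  rw [n0] at h2
  simp only [zero_mul, Real.cos_zero, abs_zero, mul_zero, add_zero] at h1 h2
  set S := ∑ p ∈ PP y, (1 : ℝ) / p with hS
  have h3 : ‖riemannZeta (((1 + 1 / Real.log y : ℝ) : ℂ) + ((0:ℝ) : ℂ) * Complex.I)‖ ≤ 18 * Real.log y := by
    rw [div_mul_eq_mul_div, one_mul, div_le_iff₀ hL0] at h2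
    simp only [Complex.ofReal_zero, zero_mul, add_zero] at h2 ⊢
    linarith
  have h4 : Real.exp (S - CA) ≤ 18 * Real.log y := by
    refine le_trans ?_ h3
    simp only [Complex.ofReal_zero, zero_mul, add_zero] at h1 ⊢
    exact h1
  have h5 : S - CA ≤ Real.log (18 * Real.log y) := (Real.le_log_iff_exp_le (by positivity)).2 h4
  rw [Real.log_mul (by norm_num) hL0.ne'] at h5
  linarith

/-- Mertens, lower bound -/
theorem mertens_lower : ∃ C : ℝ, 0 ≤ C ∧ ∀ y : ℕ, 3 ≤ y → Real.log (Real.log y) - C ≤ ∑ p ∈ PP y, (1 : ℝ) / p := by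
  obtain ⟨c, hc, h0⟩ := zeta_lower
  refine ⟨|Real.log (c * 3 ^ (-8 : ℝ))| + CA, add_nonneg (abs_nonneg _) CA_nonneg, fun y hy => ?_⟩
  have hL := one_le_log hy
  have hL0 : 0 < Real.log y := by linarith
  have h1 := (zeta_near hy 0).2
  have h2 := h0 (1 + 1 / Real.log y) 0 (by have : 0 < 1 / Real.log y := by positivity
                                           linarith)
    (by have : 1 / Real.log y ≤ 1 := (div_le_one hL0).2 hL
        linarith)
  rw [norm_mul] at h2
  have n0 : ‖(((1 + 1 / Real.log y : ℝ) : ℂ)) + ((0:ℝ) : ℂ) * Complex.I - 1‖ = 1 / Real.log y := by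
    rw [show (((1 + 1 / Real.log y : ℝ) : ℂ)) + ((0:ℝ) : ℂ) * Complex.I - 1 = (((1 / Real.log y : ℝ)) : ℂ) by push_cast; ring,
      Complex.norm_real, Real.norm_of_nonneg (by positivity)]
  rw [n0] at h2
  simp only [zero_mul, Real.cos_zero, abs_zero, mul_zero, add_zero] at h1 h2
  set S := ∑ p ∈ PP y, (1 : ℝ) / p with hS
  have h3 : c * 3 ^ (-8 : ℝ) * Real.log y ≤ ‖riemannZeta (((1 + 1 / Real.log y : ℝ) : ℂ) + ((0:ℝ) : ℂ) * Complex.I)‖ := by
    rw [div_mul_eq_mul_div, one_mul, le_div_iff₀ hL0] at h2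
    exact h2
  have hc3 : 0 < c * (3 : ℝ) ^ (-8 : ℝ) := by positivity
  have h4 : c * 3 ^ (-8 : ℝ) * Real.log y ≤ Real.exp (S + CA) := h3.trans h1
  have h5 : Real.log (c * 3 ^ (-8 : ℝ) * Real.log y) ≤ S + CA := (Real.log_le_iff_le_exp (by positivity)).2 h4
  rw [Real.log_mul hc3.ne' hL0.ne'] at h5
  linarith [neg_abs_le (Real.log (c * 3 ^ (-8 : ℝ)))]

/-- the twisted sum is bounded below -/
theorem cos_lower : ∃ C : ℝ, 0 ≤ C ∧ ∀ y : ℕ, 3 ≤ y → ∀ t : ℝ,
    - (C * (1 + Real.log (2 + |t|))) ≤ ∑ p ∈ PP y, Real.cos (t * Real.log p) / p := by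
  obtain ⟨c, hc, h0⟩ := zeta_lower
  refine ⟨|Real.log c| + CA + 8 * Real.log 2 + 9, ?_, fun y hy t => ?_⟩
  · have := CA_nonneg
    have := abs_nonneg (Real.log c)
    have : 0 ≤ Real.log 2 := Real.log_nonneg (by norm_num)
    linarith
  have hL := one_le_log hy
  have hL0 : 0 < Real.log y := by linarith
  have h1 := (zeta_near hy t).2
  have h2 := h0 (1 + 1 / Real.log y) t (by have : 0 < 1 / Real.log y := by positivity
                                           linarith)
    (by have : 1 / Real.log y ≤ 1 := (div_le_one hL0).2 hL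
        linarith)
  rw [norm_mul] at h2
  have ht := abs_nonneg t
  have n0 : ‖(((1 + 1 / Real.log y : ℝ) : ℂ)) + (t : ℂ) * Complex.I - 1‖ ≤ 2 + |t| := by
    rw [show (((1 + 1 / Real.log y : ℝ) : ℂ)) + (t : ℂ) * Complex.I - 1 = (((1 / Real.log y : ℝ)) : ℂ) + (t : ℂ) * Complex.I by push_cast; ring]
    refine (norm_add_le _ _).trans ?_
    rw [norm_mul, Complex.norm_I, mul_one, Complex.norm_real, Complex.norm_real, Real.norm_of_nonneg (by positivity), Real.norm_eq_abs]
    have : 1 / Real.log y ≤ 1 := (div_le_one hL0).2 hL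
    linarith
  set S := ∑ p ∈ PP y, Real.cos (t * Real.log p) / p with hS
  set Zn := ‖riemannZeta (((1 + 1 / Real.log y : ℝ) : ℂ) + (t : ℂ) * Complex.I)‖ with hZn
  have h3 : c * (3 + 2 * |t|) ^ (-8 : ℝ) ≤ (2 + |t|) * Real.exp (S + CA) := by
    refine h2.trans ?_
    exact mul_le_mul n0 h1 (norm_nonneg _) (by linarith)
  have h4 : Real.log (c * (3 + 2 * |t|) ^ (-8 : ℝ)) ≤ Real.log ((2 + |t|) * Real.exp (S + CA)) :=
    Real.log_le_log (by positivity) h3
  rw [Real.log_mul hc.ne' (by positivity), Real.log_mul (by positivity) (Real.exp_pos _).ne', Real.log_exp,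
    Real.log_rpow (by positivity)] at h4
  have h5 : Real.log (3 + 2 * |t|) ≤ Real.log 2 + Real.log (2 + |t|) := by
    rw [← Real.log_mul (by norm_num) (by positivity)]
    exact Real.log_le_log (by positivity) (by linarith)
  have h6 : 0 ≤ Real.log (2 + |t|) := Real.log_nonneg (by linarith)
  have h7 : 0 ≤ Real.log 2 := Real.log_nonneg (by norm_num)
  have h8 := CA_nonneg
  have h9 := abs_nonneg (Real.log c)
  have h10 := neg_abs_le (Real.log c)
  nlinarith [mul_nonneg h9 h6, mul_nonneg h8 h6, mul_nonneg h7 h6]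

end Pool.Agent.Helper66.AF
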