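import Mathlib

/-!
# A Brun-Titchmarsh inequality with some constant, by the Selberg sieve
-/

set_option autoImplicit false

namespace Pool.Agent.Helper66.AF.BT

open Finset
open scoped ArithmeticFunction.Moebius

noncomputable def D (z : ℕ) : Finset ℕ := (Finset.Icc 1 z).filter Squarefree

noncomputable def G (z : ℕ) : ℝ := ∑ m ∈ D z, 1 / (Nat.totient m : ℝ)

noncomputable def lam (z d : ℕ) : ℝ :=
  (μ d : ℝ) * d * (∑ m ∈ (D z).filter (fun m => d ∣ m), 1 / (Nat.totient m : ℝ)) / G z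

lemma mem_D {z d : ℕ} : d ∈ D z ↔ (1 ≤ d ∧ d ≤ z) ∧ Squarefree d := by
  unfold D
  rw [Finset.mem_filter, Finset.mem_Icc]

lemma one_mem_D {z : ℕ} (hz : 1 ≤ z) : 1 ∈ D z := mem_D.2 ⟨⟨le_rfl, hz⟩, squarefree_one⟩

lemma tot_pos {z d : ℕ} (h : d ∈ D z) : (0 : ℝ) < Nat.totient d := by
  have := Nat.totient_pos.2 (mem_D.1 h).1.1
  exact_mod_cast this

lemma G_pos {z : ℕ} (hz : 1 ≤ z) : 0 < G z := by
  unfold G
  exact Finset.sum_pos (fun m hm => one_div_pos.2 (tot_pos hm)) ⟨1, one_mem_D hz⟩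

lemma lam_one {z : ℕ} (hz : 1 ≤ z) : lam z 1 = 1 := by
  have h : (D z).filter (fun m => 1 ∣ m) = D z := by
    apply Finset.filter_true_of_mem
    intro m _
    exact one_dvd m
  unfold lam
  rw [h]
  have := G_pos hz
  have h2 : (∑ m ∈ D z, 1 / (Nat.totient m : ℝ)) = G z := rfl
  rw [h2]
  simp [this.ne']

lemma abs_lam_le {z d : ℕ} (hd : d ∈ D z) : |lam z d| ≤ z := by
  have hz : 1 ≤ z := (mem_D.1 hd).1.1.trans (mem_D.1 hd).1.2
  have hG := G_pos hz
  unfold lam
  have h1 : ∑ m ∈ (D z).filter (fun m => d ∣ m), 1 / (Nat.totient m : ℝ) ≤ G z := by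
    unfold G
    exact Finset.sum_le_sum_of_subset_of_nonneg (Finset.filter_subset _ _) fun m hm _ => (one_div_pos.2 (tot_pos hm)).le
  have h0 : 0 ≤ ∑ m ∈ (D z).filter (fun m => d ∣ m), 1 / (Nat.totient m : ℝ) :=
    Finset.sum_nonneg fun m _ => by positivity
  have h2 : |(μ d : ℝ)| ≤ 1 := by
    have := ArithmeticFunction.abs_moebius_le_one (n := d)
    exact_mod_cast this
  have h3 : (d : ℝ) ≤ z := by exact_mod_cast (mem_D.1 hd).1.2
  rw [abs_div, abs_mul, abs_mul, abs_of_pos hG, abs_of_nonneg h0, div_le_iff₀ hG, Nat.abs_cast]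
  calc |(μ d : ℝ)| * d * (∑ m ∈ (D z).filter (fun m => d ∣ m), 1 / (Nat.totient m : ℝ)) ≤ 1 * z * G z := by gcongr
    _ = _ := by ring

/-- Moebius over an interval of divisors -/
lemma inner {m k : ℕ} (hm : Squarefree m) : ∑ d ∈ m.divisors with k ∣ d, (μ d : ℝ) = if m = k then (μ k : ℝ) else 0 := by
  have hm0 : m ≠ 0 := hm.ne_zero
  by_cases hk : k ∣ m
  · obtain ⟨q, rfl⟩ := hk
    have hk0 : k ≠ 0 := fun h => hm0 (by simp [h])
    have hq0 : q ≠ 0 := fun h => hm0 (by simp [h])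
    have hcop : k.Coprime q := Nat.coprime_of_squarefree_mul hm
    have e1 : (k * q).divisors.filter (fun d => k ∣ d) = q.divisors.image (fun e => k * e) := by
      ext d
      simp only [Finset.mem_filter, Nat.mem_divisors, Finset.mem_image]
      constructor
      · rintro ⟨⟨h1, _⟩, ⟨e, rfl⟩⟩
        exact ⟨e, ⟨Nat.dvd_of_mul_dvd_mul_left (Nat.pos_of_ne_zero hk0) h1, hq0⟩, rfl⟩
      · rintro ⟨e, ⟨h1, _⟩, rfl⟩
        exact ⟨⟨Nat.mul_dvd_mul_left k h1, hm0⟩, dvd_mul_right k e⟩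
    rw [e1, Finset.sum_image (fun a _ b _ h => Nat.eq_of_mul_eq_mul_left (Nat.pos_of_ne_zero hk0) h)]
    have e2 : ∀ e ∈ q.divisors, ((μ (k * e) : ℤ) : ℝ) = (μ k : ℝ) * (μ e : ℝ) := by
      intro e he
      have : k.Coprime e := hcop.coprime_dvd_right (Nat.dvd_of_mem_divisors he)
      rw [ArithmeticFunction.isMultiplicative_moebius.map_mul_of_coprime this]
      push_cast
      rfl
    rw [Finset.sum_congr rfl e2, ← Finset.mul_sum]
    have e3 : ∑ e ∈ q.divisors, (μ e : ℝ) = if q = 1 then 1 else 0 := by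
      have h := congrArg (fun f : ArithmeticFunction ℝ => f q) (ArithmeticFunction.coe_moebius_mul_coe_zeta (R := ℝ))
      rw [ArithmeticFunction.coe_mul_zeta_apply, ArithmeticFunction.one_apply] at h
      rw [← h]
      exact Finset.sum_congr rfl fun e _ => by simp
    rw [e3]
    by_cases hq1 : q = 1
    · subst hq1
      simp
    · rw [if_neg hq1, if_neg (fun h => hq1 ?_), mul_zero]
      have : k * q = k * 1 := by rw [mul_one]; exact h
      exact Nat.eq_of_mul_eq_mul_left (Nat.pos_of_ne_zero hk0) this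
  · rw [if_neg (fun h => hk (by rw [h]))]
    apply Finset.sum_eq_zero
    intro d hd
    rw [Finset.mem_filter, Nat.mem_divisors] at hd
    exact absurd (hd.2.trans hd.1.1) hk

lemma VV {z k : ℕ} (hk : k ∈ D z) :
    ∑ d ∈ (D z).filter (fun d => k ∣ d), lam z d / d = (μ k : ℝ) / (G z * Nat.totient k) := by
  have hz : 1 ≤ z := (mem_D.1 hk).1.1.trans (mem_D.1 hk).1.2
  have hG := G_pos hz
  have e1 : ∀ d ∈ (D z).filter (fun d => k ∣ d), lam z d / d =
      ∑ m ∈ D z, if d ∣ m then (μ d : ℝ) * (1 / (Nat.totient m : ℝ)) / G z else 0 := by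
    intro d hd
    rw [Finset.mem_filter] at hd
    have hd0 : (0 : ℝ) < d := by exact_mod_cast (mem_D.1 hd.1).1.1
    rw [← Finset.sum_filter]
    unfold lam
    rw [← Finset.sum_div, ← Finset.mul_sum]
    field_simp
  rw [Finset.sum_congr rfl e1, Finset.sum_comm]
  have e2 : ∀ m ∈ D z, ∑ d ∈ (D z).filter (fun d => k ∣ d), (if d ∣ m then (μ d : ℝ) * (1 / (Nat.totient m : ℝ)) / G z else 0) =
      if m = k then (μ k : ℝ) / (G z * Nat.totient k) else 0 := by
    intro m hm
    rw [← Finset.sum_filter]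
    have e3 : ((D z).filter (fun d => k ∣ d)).filter (fun d => d ∣ m) = m.divisors.filter (fun d => k ∣ d) := by
      ext d
      simp only [Finset.mem_filter, Nat.mem_divisors, mem_D]
      rw [mem_D] at hm
      constructor
      · rintro ⟨⟨h1, h2⟩, h3⟩
        exact ⟨⟨h3, by omega⟩, h2⟩
      · rintro ⟨⟨h1, h2⟩, h3⟩
        have h4 : d ≤ m := Nat.le_of_dvd (by omega) h1
        have h5 : 0 < d := Nat.pos_of_dvd_of_pos h1 (by omega)
        exact ⟨⟨⟨⟨h5, by omega⟩, hm.2.squarefree_of_dvd h1⟩, h3⟩, h1⟩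
    rw [e3, ← Finset.sum_div, ← Finset.sum_mul, inner (mem_D.1 hm).2]
    split_ifs with h
    · rw [h]
      have := tot_pos hk
      field_simp
    · simp
  rw [Finset.sum_congr rfl e2, Finset.sum_ite_eq' , if_pos hk]

/-- the quadratic form at the Selberg weights -/
lemma main_eq {z : ℕ} (hz : 1 ≤ z) :
    ∑ d ∈ D z, ∑ e ∈ D z, lam z d * lam z e / (Nat.lcm d e : ℝ) = 1 / G z := by
  have hG := G_pos hz
  have e1 : ∀ d ∈ D z, ∀ e ∈ D z, lam z d * lam z e / (Nat.lcm d e : ℝ) =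
      ∑ k ∈ D z, (Nat.totient k : ℝ) * ((if k ∣ d then lam z d / d else 0) * (if k ∣ e then lam z e / e else 0)) := by
    intro d hd e he
    have hd0 : 0 < d := (mem_D.1 hd).1.1
    have he0 : 0 < e := (mem_D.1 he).1.1
    have hg0 : 0 < Nat.gcd d e := Nat.gcd_pos_of_pos_left _ hd0
    have hl0 : 0 < Nat.lcm d e := Nat.lcm_pos hd0 he0
    have h1 : ((Nat.gcd d e : ℕ) : ℝ) = ∑ k ∈ (Nat.gcd d e).divisors, (Nat.totient k : ℝ) := by
      have := Nat.sum_totient (Nat.gcd d e)
      exact_mod_cast this.symm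
    have h2 : (Nat.gcd d e).divisors = (D z).filter (fun k => k ∣ d ∧ k ∣ e) := by
      ext k
      simp only [Finset.mem_filter, Nat.mem_divisors, mem_D, Nat.dvd_gcd_iff]
      rw [mem_D] at hd
      constructor
      · rintro ⟨⟨h3, h4⟩, _⟩
        have h5 := Nat.le_of_dvd hd0 h3
        have h6 := Nat.pos_of_dvd_of_pos h3 hd0
        exact ⟨⟨⟨h6, by omega⟩, hd.2.squarefree_of_dvd h3⟩, h3, h4⟩
      · rintro ⟨_, h3, h4⟩
        exact ⟨⟨h3, h4⟩, by omega⟩
    have h3 : ((Nat.gcd d e : ℕ) : ℝ) * (Nat.lcm d e : ℝ) = d * e := by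
      have := Nat.gcd_mul_lcm d e
      exact_mod_cast this
    have h4 : lam z d * lam z e / (Nat.lcm d e : ℝ) = ((Nat.gcd d e : ℕ) : ℝ) * (lam z d / d * (lam z e / e)) := by
      have hd1 : (0 : ℝ) < d := by exact_mod_cast hd0
      have he1 : (0 : ℝ) < e := by exact_mod_cast he0
      have hl1 : (0 : ℝ) < (Nat.lcm d e : ℝ) := by exact_mod_cast hl0
      rw [div_mul_div_comm, ← h3]
      have hg1 : (0 : ℝ) < (Nat.gcd d e : ℝ) := by exact_mod_cast hg0
      field_simp
    rw [h4, h1, h2, Finset.sum_mul, Finset.sum_filter]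
    refine Finset.sum_congr rfl fun k _ => ?_
    by_cases a : k ∣ d <;> by_cases b : k ∣ e <;> simp [a, b]
  rw [Finset.sum_congr rfl fun d hd => Finset.sum_congr rfl fun e he => e1 d hd e he]
  have e2 : ∑ d ∈ D z, ∑ e ∈ D z, ∑ k ∈ D z, (Nat.totient k : ℝ) * ((if k ∣ d then lam z d / d else 0) * (if k ∣ e then lam z e / e else 0)) =
      ∑ k ∈ D z, (Nat.totient k : ℝ) * (∑ d ∈ (D z).filter (fun d => k ∣ d), lam z d / d) ^ 2 := by
    rw [Finset.sum_congr rfl fun d _ => Finset.sum_comm, Finset.sum_comm]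
    refine Finset.sum_congr rfl fun k _ => ?_
    rw [Finset.sum_filter, sq, Finset.sum_mul_sum, Finset.mul_sum]
    refine Finset.sum_congr rfl fun d _ => ?_
    rw [Finset.mul_sum]
  rw [e2]
  have e3 : ∀ k ∈ D z, (Nat.totient k : ℝ) * (∑ d ∈ (D z).filter (fun d => k ∣ d), lam z d / d) ^ 2 =
      (1 / (Nat.totient k : ℝ)) * (1 / (G z) ^ 2) := by
    intro k hk
    rw [VV hk]
    have h1 := tot_pos hk
    have h2 : ((μ k : ℤ) : ℝ) ^ 2 = 1 := by
      have := ArithmeticFunction.moebius_sq_eq_one_of_squarefree (mem_D.1 hk).2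
      exact_mod_cast this
    rw [div_pow, h2]
    field_simp
  rw [Finset.sum_congr rfl e3, ← Finset.sum_mul]
  have e4 : ∑ k ∈ D z, 1 / (Nat.totient k : ℝ) = G z := rfl
  rw [e4]
  field_simp

/-- the number of multiples of `q` in an interval -/
lemma count_dvd (u h q : ℕ) (hq : 0 < q) :
    |(((Finset.Ioc u (u + h)).filter (fun n => q ∣ n)).card : ℝ) - (h : ℝ) / q| ≤ 1 := by
  have e1 : ((Finset.Ioc u (u + h)).filter (fun n => q ∣ n)).card + u / q = (u + h) / q := by
    rw [← Nat.Ioc_filter_dvd_card_eq_div u q, ← Nat.Ioc_filter_dvd_card_eq_div (u + h) q, ← Finset.card_union_of_disjoint]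
    · congr 1
      ext n
      simp only [Finset.mem_union, Finset.mem_filter, Finset.mem_Ioc]
      constructor
      · rintro (⟨⟨h1, h2⟩, h3⟩ | ⟨⟨h1, h2⟩, h3⟩)
        · exact ⟨⟨by omega, h2⟩, h3⟩
        · exact ⟨⟨h1, by omega⟩, h3⟩
      · rintro ⟨⟨h1, h2⟩, h3⟩
        by_cases h4 : u < n
        · exact Or.inl ⟨⟨h4, h2⟩, h3⟩
        · exact Or.inr ⟨⟨h1, by omega⟩, h3⟩
    · rw [Finset.disjoint_left]
      intro n h1 h2
      simp only [Finset.mem_filter, Finset.mem_Ioc] at h1 h2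
      omega
  have hq0 : (0 : ℝ) < q := by exact_mod_cast hq
  have a1 := Nat.div_add_mod u q
  have a2 := Nat.mod_lt u hq
  have a3 := Nat.div_add_mod (u + h) q
  have a4 := Nat.mod_lt (u + h) hq
  set A := ((Finset.Ioc u (u + h)).filter (fun n => q ∣ n)).card with hA
  set B := u / q with hB
  set R1 := u % q with hR1
  set R2 := (u + h) % q with hR2
  rw [← e1] at a3
  have b1 : (q : ℝ) * B + R1 = u := by exact_mod_cast a1
  have b3 : (q : ℝ) * (A + B) + R2 = u + h := by exact_mod_cast a3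
  have b2 : (R1 : ℝ) < q := by exact_mod_cast a2
  have b4 : (R2 : ℝ) < q := by exact_mod_cast a4
  have b5 : (0 : ℝ) ≤ R1 := by positivity
  have b6 : (0 : ℝ) ≤ R2 := by positivity
  have b7 : (A : ℝ) - h / q = (R1 - R2) / q := by
    rw [eq_div_iff hq0.ne', sub_mul, div_mul_cancel₀ _ hq0.ne']
    linarith
  rw [b7, abs_div, abs_of_pos hq0, div_le_one hq0, abs_le]
  constructor <;> linarith

/-- the sieve -/
lemma sieve (u h z : ℕ) (hz : 1 ≤ z) :
    (((Finset.Ioc u (u + h)).filter Nat.Prime).card : ℝ) ≤ h / G z + z + (z : ℝ) ^ 4 := by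
  classical
  set I := Finset.Ioc u (u + h) with hI
  -- split at `z`
  have h1 : (I.filter Nat.Prime).card ≤ (Finset.Icc 1 z).card + ((I.filter Nat.Prime).filter (fun p => z < p)).card := by
    rw [← Finset.card_filter_add_card_filter_not (s := I.filter Nat.Prime) (fun p => z < p), add_comm]
    refine Nat.add_le_add_right (Finset.card_le_card ?_) _
    intro p hp
    simp only [Finset.mem_filter, not_lt] at hp
    rw [Finset.mem_Icc]
    exact ⟨hp.1.2.one_lt.le, hp.2⟩
  rw [Nat.card_Icc, Nat.add_sub_cancel] at h1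
  have h2 : (((I.filter Nat.Prime).filter (fun p => z < p)).card : ℝ) ≤ ∑ n ∈ I, (∑ d ∈ (D z).filter (fun d => d ∣ n), lam z d) ^ 2 := by
    rw [Finset.card_eq_sum_ones]
    push_cast
    refine le_trans (Finset.sum_le_sum (g := fun n => (∑ d ∈ (D z).filter (fun d => d ∣ n), lam z d) ^ 2) fun p hp => ?_)
      (Finset.sum_le_sum_of_subset_of_nonneg ((Finset.filter_subset _ _).trans (Finset.filter_subset _ _)) fun _ _ _ => sq_nonneg _)
    simp only [Finset.mem_filter] at hp
    have e1 : (D z).filter (fun d => d ∣ p) = {1} := by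
      ext d
      simp only [Finset.mem_filter, mem_D, Finset.mem_singleton]
      constructor
      · rintro ⟨⟨⟨a, b⟩, _⟩, c⟩
        rcases (Nat.dvd_prime hp.1.2).1 c with h | h
        · exact h
        · omega
      · rintro rfl
        exact ⟨⟨⟨le_rfl, hz⟩, squarefree_one⟩, one_dvd _⟩
    rw [e1, Finset.sum_singleton, lam_one hz]
    norm_num
  have h3 : ∑ n ∈ I, (∑ d ∈ (D z).filter (fun d => d ∣ n), lam z d) ^ 2 =
      ∑ d ∈ D z, ∑ e ∈ D z, lam z d * lam z e * ((I.filter (fun n => Nat.lcm d e ∣ n)).card : ℝ) := by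
    have e1 : ∀ n ∈ I, (∑ d ∈ (D z).filter (fun d => d ∣ n), lam z d) ^ 2 =
        ∑ d ∈ D z, ∑ e ∈ D z, if Nat.lcm d e ∣ n then lam z d * lam z e else 0 := by
      intro n _
      rw [Finset.sum_filter, sq, Finset.sum_mul_sum]
      refine Finset.sum_congr rfl fun d _ => Finset.sum_congr rfl fun e _ => ?_
      simp only [Nat.lcm_dvd_iff]
      by_cases a : d ∣ n <;> by_cases b : e ∣ n <;> simp [a, b]
    rw [Finset.sum_congr rfl e1, Finset.sum_comm]
    refine Finset.sum_congr rfl fun d _ => ?_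
    rw [Finset.sum_comm]
    refine Finset.sum_congr rfl fun e _ => ?_
    rw [← Finset.sum_filter, Finset.sum_const, nsmul_eq_mul]
    ring
  have h4 : ∑ d ∈ D z, ∑ e ∈ D z, lam z d * lam z e * ((I.filter (fun n => Nat.lcm d e ∣ n)).card : ℝ) ≤
      ∑ d ∈ D z, ∑ e ∈ D z, (h * (lam z d * lam z e / (Nat.lcm d e : ℝ)) + (z : ℝ) ^ 2) := by
    refine Finset.sum_le_sum fun d hd => Finset.sum_le_sum fun e he => ?_
    have hl : 0 < Nat.lcm d e := Nat.lcm_pos (mem_D.1 hd).1.1 (mem_D.1 he).1.1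
    have c1 := count_dvd u h (Nat.lcm d e) hl
    rw [← hI] at c1
    have c2 : lam z d * lam z e * ((I.filter (fun n => Nat.lcm d e ∣ n)).card : ℝ) - h * (lam z d * lam z e / (Nat.lcm d e : ℝ)) =
        lam z d * lam z e * (((I.filter (fun n => Nat.lcm d e ∣ n)).card : ℝ) - h / (Nat.lcm d e : ℝ)) := by ring
    have c3 : |lam z d * lam z e * (((I.filter (fun n => Nat.lcm d e ∣ n)).card : ℝ) - h / (Nat.lcm d e : ℝ))| ≤ (z : ℝ) ^ 2 := by
      rw [abs_mul, abs_mul]
      calc |lam z d| * |lam z e| * |((I.filter (fun n => Nat.lcm d e ∣ n)).card : ℝ) - h / (Nat.lcm d e : ℝ)| ≤ z * z * 1 := by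
            gcongr
            · exact abs_lam_le hd
            · exact abs_lam_le he
        _ = _ := by ring
    have c4 := le_abs_self (lam z d * lam z e * (((I.filter (fun n => Nat.lcm d e ∣ n)).card : ℝ) - h / (Nat.lcm d e : ℝ)))
    linarith
  have h5 : ∑ d ∈ D z, ∑ e ∈ D z, (h * (lam z d * lam z e / (Nat.lcm d e : ℝ)) + (z : ℝ) ^ 2) ≤ h / G z + (z : ℝ) ^ 4 := by
    simp only [Finset.sum_add_distrib, ← Finset.mul_sum, main_eq hz, Finset.sum_const, nsmul_eq_mul]
    have hc : ((D z).card : ℝ) ≤ z := by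
      have : (D z).card ≤ (Finset.Icc 1 z).card := Finset.card_filter_le _ _
      rw [Nat.card_Icc, Nat.add_sub_cancel] at this
      exact_mod_cast this
    have hc0 : (0 : ℝ) ≤ (D z).card := by positivity
    have : ((D z).card : ℝ) * (((D z).card : ℝ) * (z : ℝ) ^ 2) ≤ (z : ℝ) ^ 4 := by
      calc ((D z).card : ℝ) * (((D z).card : ℝ) * (z : ℝ) ^ 2) ≤ z * (z * (z : ℝ) ^ 2) := by gcongr
        _ = _ := by ring
    have h6 : (h : ℝ) * (1 / G z) = h / G z := by ring
    linarith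
  have h1' : (((I.filter Nat.Prime).card : ℕ) : ℝ) ≤ z + (((I.filter Nat.Prime).filter (fun p => z < p)).card : ℝ) := by
    exact_mod_cast h1
  linarith

/-- the sum of the reciprocals of the squares -/
noncomputable def C2 : ℝ := ∑' n : ℕ, 1 / (n : ℝ) ^ 2

lemma sum_sq_le (F : Finset ℕ) : ∑ p ∈ F, 1 / (p : ℝ) ^ 2 ≤ C2 := by
  have hs : Summable (fun n : ℕ => 1 / (n : ℝ) ^ 2) := Real.summable_one_div_nat_pow.2 (by norm_num)
  exact hs.sum_le_tsum F (fun n _ => by positivity)

lemma one_le_C2 : 1 ≤ C2 := by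
  have := sum_sq_le {1}
  simpa using this

lemma G_lower {z : ℕ} (hz : 1 ≤ z) : Real.log z ≤ C2 * G z := by
  have h1 : Real.log z ≤ ∑ n ∈ Finset.Icc 1 z, 1 / (n : ℝ) := by
    have h2 : Real.log z ≤ Real.log (z + 1) := Real.log_le_log (by exact_mod_cast hz) (by linarith)
    have h3 := log_add_one_le_harmonic z
    rw [harmonic_eq_sum_Icc] at h3
    push_cast at h3
    simp only [one_div]
    linarith
  have hch : ∀ n : ℕ, ∃ q : ℕ × ℕ, q.2 ^ 2 * q.1 = n ∧ Squarefree q.1 := by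
    intro n
    obtain ⟨a, b, h1, h2⟩ := Nat.sq_mul_squarefree n
    exact ⟨(a, b), h1, h2⟩
  choose g hg1 hg2 using hch
  have h2 : ∑ n ∈ Finset.Icc 1 z, 1 / (n : ℝ) ≤ ∑ q ∈ D z ×ˢ Finset.Icc 1 z, (1 / (Nat.totient q.1 : ℝ)) * (1 / (q.2 : ℝ) ^ 2) := by
    have e1 : ∑ n ∈ Finset.Icc 1 z, 1 / (n : ℝ) ≤ ∑ n ∈ Finset.Icc 1 z, (1 / (Nat.totient (g n).1 : ℝ)) * (1 / ((g n).2 : ℝ) ^ 2) := by
      refine Finset.sum_le_sum fun n hn => ?_
      rw [Finset.mem_Icc] at hn
      have a1 := hg1 n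
      have p1 : 0 < (g n).1 := by
        rcases Nat.eq_zero_or_pos (g n).1 with h | h
        · rw [h, mul_zero] at a1; omega
        · exact h
      have p2 : 0 < (g n).2 := by
        rcases Nat.eq_zero_or_pos (g n).2 with h | h
        · rw [h] at a1; simp at a1; omega
        · exact h
      have t1 : (0 : ℝ) < Nat.totient (g n).1 := by exact_mod_cast Nat.totient_pos.2 p1
      have t2 : (Nat.totient (g n).1 : ℝ) ≤ (g n).1 := by exact_mod_cast Nat.totient_le _
      have p2' : (0 : ℝ) < (g n).2 := by exact_mod_cast p2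
      have a2 : (n : ℝ) = ((g n).2 : ℝ) ^ 2 * (g n).1 := by exact_mod_cast a1.symm
      rw [a2, div_mul_div_comm, one_mul]
      refine one_div_le_one_div_of_le (by positivity) ?_
      rw [mul_comm]
      gcongr
    refine e1.trans ?_
    rw [← Finset.sum_image (s := Finset.Icc 1 z) (g := g) (f := fun q => (1 / (Nat.totient q.1 : ℝ)) * (1 / (q.2 : ℝ) ^ 2))]
    · refine Finset.sum_le_sum_of_subset_of_nonneg ?_ fun _ _ _ => by positivity
      intro q hq
      rw [Finset.mem_image] at hq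
      obtain ⟨n, hn, rfl⟩ := hq
      rw [Finset.mem_Icc] at hn
      have a1 := hg1 n
      have p1 : 0 < (g n).1 := by
        rcases Nat.eq_zero_or_pos (g n).1 with h | h
        · rw [h, mul_zero] at a1; omega
        · exact h
      have p2 : 0 < (g n).2 := by
        rcases Nat.eq_zero_or_pos (g n).2 with h | h
        · rw [h] at a1; simp at a1; omega
        · exact h
      rw [Finset.mem_product, mem_D, Finset.mem_Icc]
      have q1 : (g n).1 ≤ n := by
        calc (g n).1 = 1 * (g n).1 := (one_mul _).symm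
          _ ≤ (g n).2 ^ 2 * (g n).1 := Nat.mul_le_mul_right _ (Nat.one_le_pow _ _ p2)
          _ = n := a1
      have q2 : (g n).2 ≤ n := by
        calc (g n).2 ≤ (g n).2 ^ 2 := Nat.le_self_pow (by norm_num) _
          _ = (g n).2 ^ 2 * 1 := (mul_one _).symm
          _ ≤ (g n).2 ^ 2 * (g n).1 := Nat.mul_le_mul_left _ p1
          _ = n := a1
      exact ⟨⟨⟨p1, by omega⟩, hg2 n⟩, p2, by omega⟩
    · intro a _ b _ hab
      rw [← hg1 a, ← hg1 b, hab]
  rw [Finset.sum_product] at h2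
  have h3 : ∑ m ∈ D z, ∑ k ∈ Finset.Icc 1 z, (1 / (Nat.totient m : ℝ)) * (1 / (k : ℝ) ^ 2) ≤ ∑ m ∈ D z, (1 / (Nat.totient m : ℝ)) * C2 := by
    refine Finset.sum_le_sum fun m _ => ?_
    rw [← Finset.mul_sum]
    exact mul_le_mul_of_nonneg_left (sum_sq_le _) (by positivity)
  rw [← Finset.sum_mul] at h3
  have e4 : ∑ k ∈ D z, 1 / (Nat.totient k : ℝ) = G z := rfl
  rw [e4] at h3
  simp only at h2
  linarith

theorem brun_titchmarsh : ∃ C : ℝ, 0 < C ∧ ∀ u h : ℕ, 2 ≤ h →
    (((Finset.Ioc u (u + h)).filter Nat.Prime).card : ℝ) ≤ C * (h / Real.log h) := by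
  have hC2 := one_le_C2
  refine ⟨10 * C2 + 10, by linarith, fun u h hh => ?_⟩
  have hh0 : (2 : ℝ) ≤ h := by exact_mod_cast hh
  have hlog : 0 < Real.log h := Real.log_pos (by linarith)
  have htriv : (((Finset.Ioc u (u + h)).filter Nat.Prime).card : ℝ) ≤ h := by
    have : ((Finset.Ioc u (u + h)).filter Nat.Prime).card ≤ (Finset.Ioc u (u + h)).card := Finset.card_filter_le _ _
    rw [Nat.card_Ioc, Nat.add_sub_cancel_left] at this
    exact_mod_cast this
  have hq : 0 < (h : ℝ) / Real.log h := by positivity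
  by_cases hsm : h < 32
  · have h1 : Real.log h ≤ 5 := by
      have h2 : Real.log h ≤ Real.log (2 ^ 5) := Real.log_le_log (by linarith) (by
        have : (h : ℝ) < 32 := by exact_mod_cast hsm
        norm_num
        linarith)
      rw [Real.log_pow] at h2
      have := Real.log_two_lt_d9
      push_cast at h2
      linarith
    refine htriv.trans ?_
    rw [mul_div_assoc', le_div_iff₀ hlog]
    nlinarith
  · push Not at hsm
    set w : ℝ := (h : ℝ) ^ ((1 : ℝ) / 5) with hw
    have hw0 : 0 < w := by positivity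
    have hw5 : w ^ 5 = h := by
      rw [hw, ← Real.rpow_natCast, ← Real.rpow_mul (by linarith)]
      norm_num
    have hw2 : 2 ≤ w := by
      have h32 : (32 : ℝ) ≤ h := by exact_mod_cast hsm
      by_contra hlt
      push Not at hlt
      have : w ^ 5 < 2 ^ 5 := pow_lt_pow_left₀ hlt hw0.le (by norm_num)
      rw [hw5] at this
      norm_num at this
      linarith
    set z : ℕ := ⌊w⌋₊ with hz
    have hz1 : (z : ℝ) ≤ w := Nat.floor_le hw0.le
    have hz2 : w < z + 1 := Nat.lt_floor_add_one w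
    have hz3 : 2 ≤ z := Nat.le_floor (by exact_mod_cast hw2)
    have hz3' : (2 : ℝ) ≤ z := by exact_mod_cast hz3
    have hlz : Real.log h ≤ 10 * Real.log z := by
      have e1 : Real.log h = 5 * Real.log w := by
        rw [← hw5, Real.log_pow]
        norm_num
      have e2 : Real.log w ≤ 2 * Real.log z := by
        have : w ≤ (z : ℝ) ^ 2 := by nlinarith
        have := Real.log_le_log hw0 this
        rw [Real.log_pow] at this
        exact_mod_cast this
      linarith
    have hGz := G_lower (z := z) (by omega)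
    have hG := G_pos (z := z) (by omega)
    have hs := sieve u h z (by omega)
    have a1 : (h : ℝ) / G z ≤ 10 * C2 * (h / Real.log h) := by
      rw [div_le_iff₀ hG, mul_div_assoc', div_mul_eq_mul_div, le_div_iff₀ hlog]
      have : Real.log h ≤ 10 * (C2 * G z) := by linarith
      nlinarith
    have a2 : (z : ℝ) + (z : ℝ) ^ 4 ≤ 2 * w ^ 4 := by
      have e1 : (z : ℝ) ^ 4 ≤ w ^ 4 := pow_le_pow_left₀ (by positivity) hz1 4
      have e2 : (z : ℝ) ≤ w ^ 4 := by
        refine hz1.trans ?_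
        calc w = w ^ 1 := (pow_one _).symm
          _ ≤ w ^ 4 := pow_le_pow_right₀ (by linarith) (by norm_num)
      linarith
    have a3 : w ^ 4 ≤ 5 * (h / Real.log h) := by
      have e1 : Real.log h = 5 * Real.log w := by
        rw [← hw5, Real.log_pow]
        norm_num
      have e2 : Real.log w ≤ w := by
        have := Real.log_le_sub_one_of_pos hw0
        linarith
      rw [mul_div_assoc', le_div_iff₀ hlog, e1, ← hw5]
      have : w ^ 4 * (5 * Real.log w) ≤ w ^ 4 * (5 * w) := by gcongr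
      nlinarith
    linarith

end Pool.Agent.Helper66.AF.BT
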