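import Pool.Agent.Helper66.AF.CE

/-!
# The ballot estimate
-/

set_option autoImplicit false

namespace Pool.Agent.Helper66.AF

open Finset MeasureTheory Pool.Agent.Helper5.RM Pool.Agent.Helper96.AF

/-- the effect of one sign on the walk -/
lemma ZZ_flip {t : ℝ} {q : ℕ} {T : Finset ℕ} (hT : q ∉ T) (j : ℕ) :
    ZZ t j T - ZZ t j (insert q T) = if q ∈ PP (Y j) then 2 * th q t ^ 2 * (1 / th q t) * 1 else 0 := by
  split_ifs with hq
  · unfold ZZ
    rw [← Finset.sum_sub_distrib]
    rw [Finset.sum_eq_single q]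
    · rw [sg_not_mem hT, sg_mem (Finset.mem_insert_self q T)]
      by_cases h0 : th q t = 0
      · rw [h0]; norm_num
      · field_simp
        ring
    · intro p _ hpq
      rw [sg_insert_of_ne hpq]
      ring
    · intro h
      exact absurd hq h
  · rw [ZZ_insert hq, sub_self]

lemma ZZ_flip_nonneg {t : ℝ} {q : ℕ} {T : Finset ℕ} (hT : q ∉ T) (hq : 0 ≤ th q t) (j : ℕ) :
    ZZ t j (insert q T) ≤ ZZ t j T := by
  have h := ZZ_flip (t := t) hT j
  split_ifs at h
  · have : 0 ≤ 2 * th q t ^ 2 * (1 / th q t) * 1 := by positivity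
    linarith
  · linarith

lemma ZZ_flip_nonpos {t : ℝ} {q : ℕ} {T : Finset ℕ} (hT : q ∉ T) (hq : th q t < 0) (j : ℕ) :
    ZZ t j T ≤ ZZ t j (insert q T) := by
  have h := ZZ_flip (t := t) hT j
  split_ifs at h
  · have : 2 * th q t ^ 2 * (1 / th q t) * 1 ≤ 0 := by
      have h1 : 1 / th q t ≤ 0 := (one_div_neg.2 hq).le
      nlinarith [sq_nonneg (th q t)]
    linarith
  · linarith

open Classical in
/-- correlation and optional stopping -/
lemma stay_bound {K : ℕ} (hK : 1 ≤ K) {t A b : ℝ} (hA : 4 ≤ A) (hb : 0 ≤ b) {M : ℝ} (hM : ∀ l < K, ∑ p ∈ BL l, th p t ^ 2 ≤ M)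
    (hs : 0 < ∑ p ∈ PP (Y K), th p t ^ 2) :
    aw (PP (Y K)) (fun p => th p t) (fun T => if ST t A K T then 1 else 0) * (Real.sqrt (∑ p ∈ PP (Y K), th p t ^ 2) / 10000) ≤
      A + b + K * (Real.exp (-b) * Real.exp (4 * M)) := by
  set F : Finset ℕ → ℝ := fun T => max (A + b - ZZ t K T) 0 with hF
  set G : Finset ℕ → ℝ := fun T => if ST t A K T then 1 else 0 with hG
  set σ : ℕ → ℝ := fun q => if 0 ≤ th q t then -1 else 1 with hσ
  have h1 := aw_harris (S := PP (Y K)) (θ := fun p => th p t) (hth t) σ (fun p _ => by rw [hσ]; simp only; split_ifs <;> norm_num) F G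
    (by
      intro q _ T _ hqT
      rw [hσ, hF]
      simp only
      split_ifs with h
      · have := ZZ_flip_nonneg (t := t) hqT h K
        have h2 : max (A + b - ZZ t K T) 0 ≤ max (A + b - ZZ t K (insert q T)) 0 := max_le_max (by linarith) le_rfl
        linarith
      · have := ZZ_flip_nonpos (t := t) hqT (not_le.1 h) K
        have h2 : max (A + b - ZZ t K (insert q T)) 0 ≤ max (A + b - ZZ t K T) 0 := max_le_max (by linarith) le_rfl
        linarith)
    (by
      intro q _ T _ hqT
      rw [hσ, hG]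
      simp only
      split_ifs with h h2 h3 h3 h4 h5 h5
      all_goals try norm_num
      · exact h3 fun j hj => (ZZ_flip_nonneg (t := t) hqT h j).trans (h2 j hj)
      · exact h4 fun j hj => (ZZ_flip_nonpos (t := t) hqT (not_le.1 h) j).trans (h5 j hj))
  have h2 : Real.sqrt (∑ p ∈ PP (Y K), th p t ^ 2) / 10000 ≤ aw (PP (Y K)) (fun p => th p t) F := by
    have e1 : aw (PP (Y K)) (fun p => th p t) (fun T => (1 / 2) * (|ZZ t K T| - ZZ t K T)) ≤ aw (PP (Y K)) (fun p => th p t) F := by
      refine aw_mono (hth t) fun T _ => ?_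
      rw [hF]
      simp only
      rcases abs_cases (ZZ t K T) with h | h
      · rw [h.1, sub_self, mul_zero]
        exact le_max_right _ _
      · rw [h.1]
        refine le_trans ?_ (le_max_left _ _)
        linarith
    rw [aw_mul_left, aw_sub] at e1
    have e2 : aw (PP (Y K)) (fun p => th p t) (fun T => ZZ t K T) = 0 := aw_ZZ t K
    have e3 := abs_moment (S := PP (Y K)) (θ := fun p => th p t) (fun p hp => th_sq_le (two_le_of_mem_PP hp) t) hs
    have e4 : aw (PP (Y K)) (fun p => th p t) (fun T => |ZZ t K T|) =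
      aw (PP (Y K)) (fun p => th p t) (fun T => |∑ p ∈ PP (Y K), th p t * (sg T p - th p t)|) := rfl
    rw [e2, e4, sub_zero] at e1
    linarith
  have h3 := walk (K := K) hA hb hM K le_rfl
  have h4 : aw (PP (Y K)) (fun p => th p t) (fun T => F T * G T) =
      aw (PP (Y K)) (fun p => th p t) (fun T => if ST t A K T then A + b - ZZ t K T else 0) := by
    refine aw_congr fun T _ => ?_
    rw [hF, hG]
    simp only
    split_ifs with h
    · have := h K (Finset.mem_Icc.2 ⟨hK, le_rfl⟩)
      rw [mul_one, max_eq_left]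
      linarith
    · rw [mul_zero]
  rw [h4] at h1
  have h5 : 0 ≤ aw (PP (Y K)) (fun p => th p t) G := by
    refine aw_nonneg (hth t) fun T _ => ?_
    rw [hG]
    simp only
    split_ifs <;> norm_num
  have h6 := mul_le_mul_of_nonneg_right h2 h5
  calc _ = Real.sqrt (∑ p ∈ PP (Y K), th p t ^ 2) / 10000 * aw (PP (Y K)) (fun p => th p t) G := by ring
    _ ≤ aw (PP (Y K)) (fun p => th p t) F * aw (PP (Y K)) (fun p => th p t) G := h6
    _ ≤ _ := h1.trans h3

/-- the variance is at least `K` for large `K` -/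
lemma var_lower : ∃ K0 : ℕ, ∀ K : ℕ, K0 ≤ K → ∀ t : ℝ, |t| ≤ K → (K : ℝ) ≤ ∑ p ∈ PP (Y K), th p t ^ 2 := by
  obtain ⟨C, hC, h⟩ := theta_lower
  set ε : ℝ := 1 / (8 * (C + 1)) with hε
  have hε0 : 0 < ε := by positivity
  set C' : ℝ := C * (2 * ε - Real.log ε) with hC'
  refine ⟨⌈8 * |C'|⌉₊, fun K hK t ht => ?_⟩
  have h1 := h K t
  have hK1 : 8 * |C'| ≤ K := (Nat.le_ceil _).trans (by exact_mod_cast hK)
  have hK0 : (0 : ℝ) ≤ K := by positivity
  have h2 : Real.log (2 + |t|) ≤ Real.log (2 + K) := Real.log_le_log (by positivity) (by linarith)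
  have h3 : Real.log (2 + K) ≤ ε * (2 + K) - 1 - Real.log ε := by
    have := Real.log_le_sub_one_of_pos (show 0 < ε * (2 + K) by positivity)
    rw [Real.log_mul hε0.ne' (by positivity)] at this
    linarith
  have h4 : C * (1 + Real.log (2 + |t|)) ≤ C * (ε * (2 + K) - Real.log ε) := mul_le_mul_of_nonneg_left (by linarith) hC
  have h5 : C * (ε * (2 + K) - Real.log ε) = (C * ε) * K + C' := by rw [hC']; ring
  have h6 : C * ε ≤ 1 / 8 := by
    rw [hε, mul_one_div, div_le_div_iff₀ (by positivity) (by norm_num)]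
    linarith
  have h7 : (C * ε) * K ≤ 1 / 8 * K := mul_le_mul_of_nonneg_right h6 hK0
  have h8 := le_abs_self C'
  have h9 := Real.log_two_gt_d9
  nlinarith

open Classical in
theorem ballot : ∃ C : ℝ, 0 < C ∧ ∀ K : ℕ, 2 ≤ K → ∀ t : ℝ, |t| ≤ K → ∀ a : ℝ, 0 ≤ a →
    aw (PP (Y K)) (fun p => th p t) (fun T => if AA a K T t then 1 else 0) ≤
      C * (a + Real.log K) / Real.sqrt K := by
  obtain ⟨C3, hC3, h3⟩ := block_sum
  obtain ⟨C4, hC4, h4⟩ := logp_sum
  obtain ⟨K0, hK0⟩ := var_lower
  set CC : ℝ := 100000 * (1 + 16 * C3 + 24 * C4) + Real.exp (32 * C4) with hCC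
  have hexp : 0 < Real.exp (32 * C4) := Real.exp_pos _
  have hl2 : 0 < Real.log 2 := Real.log_pos (by norm_num)
  refine ⟨CC / Real.log 2 + Real.sqrt K0 / Real.log 2 + CC, by positivity, fun K hK t ht a ha => ?_⟩
  have hK' : (2 : ℝ) ≤ K := by exact_mod_cast hK
  have hsK : 0 < Real.sqrt K := Real.sqrt_pos.2 (by linarith)
  have hlK : Real.log 2 ≤ Real.log K := Real.log_le_log (by norm_num) hK'
  have hlK0 : 0 < Real.log K := by linarith
  have htriv : aw (PP (Y K)) (fun p => th p t) (fun T => if AA a K T t then 1 else 0) ≤ 1 := by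
    refine (aw_mono (hth t) (G := fun _ => (1 : ℝ)) fun T _ => ?_).trans (aw_const _ _ _).le
    split_ifs <;> norm_num
  rcases lt_or_ge K K0 with hsm | hbig
  · refine htriv.trans ?_
    rw [le_div_iff₀ hsK, one_mul]
    have e1 : Real.sqrt K ≤ Real.sqrt K0 := Real.sqrt_le_sqrt (by exact_mod_cast hsm.le)
    have e2 : Real.sqrt K0 = Real.sqrt K0 / Real.log 2 * Real.log 2 := by field_simp
    have e3 : Real.sqrt K0 / Real.log 2 * Real.log 2 ≤ Real.sqrt K0 / Real.log 2 * (a + Real.log K) :=
      mul_le_mul_of_nonneg_left (by linarith) (by positivity)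
    have e4 : Real.sqrt K0 / Real.log 2 * (a + Real.log K) ≤ (CC / Real.log 2 + Real.sqrt K0 / Real.log 2 + CC) * (a + Real.log K) := by
      refine mul_le_mul_of_nonneg_right ?_ (by linarith)
      have : 0 ≤ CC / Real.log 2 := by positivity
      have : 0 ≤ CC := by positivity
      linarith
    linarith
  · -- the main case
    set lam : ℝ := 2 * Real.log K with hlam
    set A : ℝ := a + 24 * C4 + lam + 4 with hA
    set b : ℝ := Real.log K + 16 * C3 with hb
    have hA4 : 4 ≤ A := by rw [hA]; nlinarith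
    have hb0 : 0 ≤ b := by rw [hb]; nlinarith
    have hvar := hK0 K hbig t ht
    have hM : ∀ l < K, ∑ p ∈ BL l, th p t ^ 2 ≤ 4 * C3 := by
      intro l _
      have e1 : ∀ p ∈ BL l, th p t ^ 2 ≤ 4 * ((1 : ℝ) / p) := by
        intro p hp
        rw [mul_one_div]
        exact th_sq_le' (mem_BL.1 hp).1.one_lt.le t
      refine (Finset.sum_le_sum e1).trans ?_
      rw [← Finset.mul_sum]
      have := h3 l
      linarith
    have hst := stay_bound (K := K) (by omega) hA4 hb0 hM (lt_of_lt_of_le (by linarith) hvar)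
    have hKe : (K : ℝ) * (Real.exp (-b) * Real.exp (4 * (4 * C3))) = 1 := by
      rw [← Real.exp_add, hb, show -(Real.log K + 16 * C3) + 4 * (4 * C3) = -Real.log K by ring, Real.exp_neg,
        Real.exp_log (by linarith)]
      field_simp
    rw [hKe] at hst
    set P := aw (PP (Y K)) (fun p => th p t) (fun T => if ST t A K T then 1 else 0) with hP
    have hP0 : 0 ≤ P := by
      refine aw_nonneg (hth t) fun T _ => ?_
      split_ifs <;> norm_num
    have hsq : Real.sqrt K ≤ Real.sqrt (∑ p ∈ PP (Y K), th p t ^ 2) := Real.sqrt_le_sqrt hvar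
    have hP1 : P * Real.sqrt K ≤ 10000 * (A + b + 1) := by
      have : P * (Real.sqrt K / 10000) ≤ A + b + 1 :=
        le_trans (mul_le_mul_of_nonneg_left (by linarith) hP0) hst
      linarith
    -- reduction to the walk
    have hred : aw (PP (Y K)) (fun p => th p t) (fun T => if AA a K T t then 1 else 0) ≤ P + K * (Real.exp (-lam) * Real.exp (32 * C4)) := by
      have hpt : ∀ T ⊆ PP (Y K), (if AA a K T t then (1 : ℝ) else 0) ≤
          (if ST t A K T then 1 else 0) + ∑ l ∈ Finset.Icc 1 K, Real.exp (-lam) * Real.exp (-(DD t l T)) := by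
        intro T _
        have hnn : 0 ≤ ∑ l ∈ Finset.Icc 1 K, Real.exp (-lam) * Real.exp (-(DD t l T)) :=
          Finset.sum_nonneg fun l _ => by positivity
        by_cases h1 : AA a K T t
        · rw [if_pos h1]
          by_cases h2 : ST t A K T
          · rw [if_pos h2]
            linarith
          · rw [if_neg h2, zero_add]
            unfold ST at h2
            push Not at h2
            obtain ⟨l, hl, h5⟩ := h2
            have h6 := AA_walk hC4 h4 h1 l hl
            have h7 : 1 ≤ Real.exp (-lam) * Real.exp (-(DD t l T)) := by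
              rw [← Real.exp_add]
              apply Real.one_le_exp
              rw [hA] at h5
              linarith
            exact h7.trans (Finset.single_le_sum (f := fun l => Real.exp (-lam) * Real.exp (-(DD t l T)))
              (fun l _ => by positivity) hl)
        · rw [if_neg h1]
          have : (0 : ℝ) ≤ if ST t A K T then 1 else 0 := by split_ifs <;> norm_num
          linarith
      refine (aw_mono (hth t) hpt).trans ?_
      rw [aw_add, aw_sum]
      have h8 : ∑ l ∈ Finset.Icc 1 K, aw (PP (Y K)) (fun p => th p t) (fun T => Real.exp (-lam) * Real.exp (-(DD t l T))) ≤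
          ∑ l ∈ Finset.Icc 1 K, Real.exp (-lam) * Real.exp (32 * C4) := by
        refine Finset.sum_le_sum fun l hl => ?_
        rw [aw_mul_left]
        exact mul_le_mul_of_nonneg_left (aw_exp_DD hC4 h4 (Finset.mem_Icc.1 hl).2 t) (Real.exp_pos _).le
      rw [Finset.sum_const, Nat.card_Icc, Nat.add_sub_cancel, nsmul_eq_mul] at h8
      linarith
    have hKl : (K : ℝ) * (Real.exp (-lam) * Real.exp (32 * C4)) = Real.exp (32 * C4) / K := by
      rw [hlam, show -(2 * Real.log K) = -Real.log K + -Real.log K by ring, Real.exp_add, Real.exp_neg, Real.exp_log (by linarith)]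
      field_simp
    rw [hKl] at hred
    have hfin : Real.exp (32 * C4) / K * Real.sqrt K ≤ Real.exp (32 * C4) := by
      have e1 : Real.sqrt K ≤ K := by
        rw [Real.sqrt_le_left (by linarith)]
        nlinarith
      rw [div_mul_eq_mul_div, div_le_iff₀ (by linarith)]
      exact mul_le_mul_of_nonneg_left e1 hexp.le
    rw [le_div_iff₀ hsK]
    have e1 : aw (PP (Y K)) (fun p => th p t) (fun T => if AA a K T t then 1 else 0) * Real.sqrt K ≤
        10000 * (A + b + 1) + Real.exp (32 * C4) := by
      have := mul_le_mul_of_nonneg_right hred hsK.le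
      rw [add_mul] at this
      linarith
    refine e1.trans ?_
    have e2 : 10000 * (A + b + 1) + Real.exp (32 * C4) ≤ CC * (1 + (a + Real.log K)) := by
      have hx : 0 ≤ a + Real.log K := by linarith
      have : 10000 * (A + b + 1) = 10000 * (a + 3 * Real.log K + 16 * C3 + 24 * C4 + 5) := by
        rw [hA, hb, hlam]; ring
      rw [this, hCC]
      nlinarith [mul_nonneg hC3 hx, mul_nonneg hC4 hx, mul_nonneg hexp.le hx]
    refine e2.trans ?_
    have hCC0 : 0 ≤ CC := by positivity
    have e3 : CC ≤ CC / Real.log 2 * (a + Real.log K) := by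
      rw [div_mul_eq_mul_div, le_div_iff₀ hl2]
      exact mul_le_mul_of_nonneg_left (by linarith) hCC0
    have e4 : 0 ≤ Real.sqrt K0 / Real.log 2 * (a + Real.log K) := by
      have : 0 ≤ a + Real.log K := by linarith
      positivity
    nlinarith

end Pool.Agent.Helper66.AF
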