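import Pool.Agent.Helper66.AF.WK

/-!
# From the barrier event (cell means) to the walk
-/

set_option autoImplicit false

namespace Pool.Agent.Helper66.AF

open Finset MeasureTheory Pool.Agent.Helper5.RM Pool.Agent.Helper96.AF

/-- the mean over the cell -/
noncomputable def cm (l : ℕ) (j : ℤ) (f : ℝ → ℝ) : ℝ := 2 ^ l * ∫ u in ((j : ℝ) / 2 ^ l)..(((j : ℝ) + 1) / 2 ^ l), f u

lemma cell_len (l : ℕ) (j : ℤ) : ((j : ℝ) + 1) / 2 ^ l - (j : ℝ) / 2 ^ l = 1 / 2 ^ l := by
  rw [← sub_div]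
  congr 1
  ring

lemma cell_le (l : ℕ) (j : ℤ) : (j : ℝ) / 2 ^ l ≤ ((j : ℝ) + 1) / 2 ^ l := by
  have h := cell_len l j
  have : (0 : ℝ) < 1 / 2 ^ l := by positivity
  linarith

lemma cm_const (l : ℕ) (j : ℤ) (c : ℝ) : cm l j (fun _ => c) = c := by
  unfold cm
  rw [intervalIntegral.integral_const, cell_len, smul_eq_mul]
  field_simp

lemma cm_sub (l : ℕ) (j : ℤ) {f g : ℝ → ℝ} (hf : Continuous f) (hg : Continuous g) :
    cm l j (fun u => f u - g u) = cm l j f - cm l j g := by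
  unfold cm
  rw [intervalIntegral.integral_sub (hf.intervalIntegrable _ _) (hg.intervalIntegrable _ _)]
  ring

lemma cm_mul (l : ℕ) (j : ℤ) (c : ℝ) (f : ℝ → ℝ) : cm l j (fun u => c * f u) = c * cm l j f := by
  unfold cm
  rw [intervalIntegral.integral_const_mul]
  ring

lemma cm_sum (l : ℕ) (j : ℤ) (s : Finset ℕ) {f : ℕ → ℝ → ℝ} (hf : ∀ p ∈ s, Continuous (f p)) :
    cm l j (fun u => ∑ p ∈ s, f p u) = ∑ p ∈ s, cm l j (f p) := by
  unfold cm
  rw [intervalIntegral.integral_finset_sum (fun p hp => (hf p hp).intervalIntegrable _ _), Finset.mul_sum]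

/-- closeness of the mean to a value -/
lemma cm_near {l : ℕ} {j : ℤ} {f : ℝ → ℝ} (hf : Continuous f) {c B : ℝ}
    (h : ∀ u, (j : ℝ) / 2 ^ l ≤ u → u ≤ ((j : ℝ) + 1) / 2 ^ l → |f u - c| ≤ B) : |cm l j f - c| ≤ B := by
  have e1 : cm l j f - c = cm l j (fun u => f u - c) := by
    rw [cm_sub l j hf continuous_const, cm_const]
  rw [e1]
  unfold cm
  have h2 := intervalIntegral.norm_integral_le_of_norm_le_const (a := (j : ℝ) / 2 ^ l) (b := ((j : ℝ) + 1) / 2 ^ l)
    (f := fun u => f u - c) (C := B) (fun u hu => by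
      rw [Set.uIoc_of_le (cell_le l j)] at hu
      exact h u hu.1.le hu.2)
  rw [cell_len, abs_of_pos (by positivity), Real.norm_eq_abs] at h2
  rw [abs_mul, abs_of_pos (by positivity : (0 : ℝ) < 2 ^ l)]
  calc 2 ^ l * |∫ u in ((j : ℝ) / 2 ^ l)..(((j : ℝ) + 1) / 2 ^ l), (f u - c)| ≤ 2 ^ l * (B * (1 / 2 ^ l)) :=
        mul_le_mul_of_nonneg_left h2 (by positivity)
    _ = B := by field_simp

/-- Jensen -/
lemma jensen {l : ℕ} {j : ℤ} {f : ℝ → ℝ} (hf : Continuous f) : Real.exp (cm l j f) ≤ cm l j (fun u => Real.exp (f u)) := by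
  set m := cm l j f with hm
  have h1 : cm l j (fun u => Real.exp m * (1 + (f u - m))) = Real.exp m := by
    rw [cm_mul]
    have e2 : cm l j (fun u => 1 + (f u - m)) = 1 := by
      have e3 : (fun u => 1 + (f u - m)) = (fun u => f u - (m - 1)) := by funext u; ring
      rw [e3, cm_sub l j hf continuous_const, cm_const]
      linarith
    rw [e2, mul_one]
  rw [← h1]
  unfold cm
  refine mul_le_mul_of_nonneg_left ?_ (by positivity)
  refine intervalIntegral.integral_mono_on (cell_le l j) (Continuous.intervalIntegrable (by fun_prop) _ _)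
    (Continuous.intervalIntegrable (by fun_prop) _ _) fun u _ => ?_
  have h2 := Real.add_one_le_exp (f u - m)
  have h3 : Real.exp (f u) = Real.exp m * Real.exp (f u - m) := by
    rw [← Real.exp_add]
    congr 1
    ring
  rw [h3]
  exact mul_le_mul_of_nonneg_left (by linarith) (Real.exp_pos _).le

lemma th_near {p : ℕ} (hp : 2 ≤ p) (u t : ℝ) : |th p u - th p t| ≤ 2 / Real.sqrt p * (|u - t| * Real.log p) := by
  have hp0 : (2 : ℝ) ≤ p := by exact_mod_cast hp
  have hlp : 0 ≤ Real.log p := Real.log_nonneg (by linarith)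
  have hs : 0 < Real.sqrt p := Real.sqrt_pos.2 (by linarith)
  have hss : Real.sqrt p * Real.sqrt p = p := Real.mul_self_sqrt (by linarith)
  have e1 : th p u - th p t = 2 * Real.sqrt p / (p + 1) * (Real.cos (u * Real.log p) - Real.cos (t * Real.log p)) := by
    unfold th
    ring
  rw [e1, abs_mul]
  have e2 : |2 * Real.sqrt p / ((p : ℝ) + 1)| ≤ 2 / Real.sqrt p := by
    rw [abs_of_nonneg (by positivity), div_le_div_iff₀ (by positivity) hs]
    nlinarith
  have e3 : |Real.cos (u * Real.log p) - Real.cos (t * Real.log p)| ≤ |u - t| * Real.log p := by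
    refine (Real.abs_cos_sub_cos_le _ _).trans (le_of_eq ?_)
    rw [← sub_mul, abs_mul, abs_of_nonneg hlp]
  exact mul_le_mul e2 e3 (abs_nonneg _) (by positivity)

lemma abs_th_le' {p : ℕ} (hp : 2 ≤ p) (t : ℝ) : |th p t| ≤ 2 / Real.sqrt p := by
  have hp0 : (2 : ℝ) ≤ p := by exact_mod_cast hp
  have hs : 0 < Real.sqrt p := Real.sqrt_pos.2 (by linarith)
  have hss : Real.sqrt p * Real.sqrt p = p := Real.mul_self_sqrt (by linarith)
  refine (abs_th_le p t).trans ?_
  rw [div_le_div_iff₀ (by positivity) hs]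
  nlinarith

lemma cell_dist {l : ℕ} {t u : ℝ} (h1 : ((⌊2 ^ l * t⌋ : ℤ) : ℝ) / 2 ^ l ≤ u) (h2 : u ≤ (((⌊2 ^ l * t⌋ : ℤ) : ℝ) + 1) / 2 ^ l) :
    |u - t| ≤ 1 / 2 ^ l := by
  have h3 := Int.floor_le (2 ^ l * t)
  have h4 := (Int.lt_floor_add_one (2 ^ l * t)).le
  have h5 : ((⌊2 ^ l * t⌋ : ℤ) : ℝ) / 2 ^ l ≤ t := by
    rw [div_le_iff₀ (by positivity)]
    linarith
  have h6 : t ≤ (((⌊2 ^ l * t⌋ : ℤ) : ℝ) + 1) / 2 ^ l := by
    rw [le_div_iff₀ (by positivity)]
    linarith
  have h7 := cell_len l ⌊2 ^ l * t⌋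
  rw [abs_le]
  constructor <;> linarith

/-- the coefficients of the error -/
noncomputable def cc (t : ℝ) (l p : ℕ) : ℝ := cm l ⌊2 ^ l * t⌋ (th p) - th p t

lemma cc_le {p : ℕ} (hp : 2 ≤ p) (t : ℝ) (l : ℕ) : |cc t l p| ≤ 2 / Real.sqrt p * (1 / 2 ^ l * Real.log p) := by
  unfold cc
  have hp0 : (2 : ℝ) ≤ p := by exact_mod_cast hp
  have hlp : 0 ≤ Real.log p := Real.log_nonneg (by linarith)
  refine cm_near (continuous_th p) fun u h1 h2 => ?_
  refine (th_near hp u t).trans ?_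
  have := cell_dist h1 h2
  gcongr

lemma cc_sq_le {p : ℕ} (hp : 2 ≤ p) (t : ℝ) (l : ℕ) : cc t l p ^ 2 ≤ 4 * (1 / 2 ^ l) ^ 2 * (Real.log p * (Real.log p / p)) := by
  have hp0 : (2 : ℝ) ≤ p := by exact_mod_cast hp
  rw [← sq_abs]
  refine (pow_le_pow_left₀ (abs_nonneg _) (cc_le hp t l) 2).trans (le_of_eq ?_)
  rw [mul_pow, div_pow, Real.sq_sqrt (by linarith)]
  ring

lemma qq_le {p : ℕ} (hp : 2 ≤ p) (t : ℝ) (l : ℕ) :
    |cm l ⌊2 ^ l * t⌋ (fun u => th p u ^ 2) - th p t ^ 2| ≤ 8 * (1 / 2 ^ l) * (Real.log p / p) := by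
  have hp0 : (2 : ℝ) ≤ p := by exact_mod_cast hp
  have hlp : 0 ≤ Real.log p := Real.log_nonneg (by linarith)
  have hs : 0 < Real.sqrt p := Real.sqrt_pos.2 (by linarith)
  have hss : Real.sqrt p * Real.sqrt p = p := Real.mul_self_sqrt (by linarith)
  refine cm_near ((continuous_th p).pow 2) fun u h1 h2 => ?_
  have e1 : th p u ^ 2 - th p t ^ 2 = (th p u - th p t) * (th p u + th p t) := by ring
  show |th p u ^ 2 - th p t ^ 2| ≤ _
  rw [e1, abs_mul]
  have e2 : |th p u - th p t| ≤ 2 / Real.sqrt p * (1 / 2 ^ l * Real.log p) := by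
    refine (th_near hp u t).trans ?_
    have := cell_dist h1 h2
    gcongr
  have e3 : |th p u + th p t| ≤ 4 / Real.sqrt p := by
    refine (abs_add_le _ _).trans ?_
    have a1 := abs_th_le' hp u
    have a2 := abs_th_le' hp t
    have a3 : 4 / Real.sqrt p = 2 / Real.sqrt p + 2 / Real.sqrt p := by ring
    linarith
  refine (mul_le_mul e2 e3 (abs_nonneg _) (by positivity)).trans (le_of_eq ?_)
  rw [show 2 / Real.sqrt p * (1 / 2 ^ l * Real.log p) * (4 / Real.sqrt p) = 8 * (1 / 2 ^ l) * (Real.log p / (Real.sqrt p * Real.sqrt p)) by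
    field_simp
    ring, hss]

/-- the error term -/
noncomputable def DD (t : ℝ) (l : ℕ) (T : Finset ℕ) : ℝ := ∑ p ∈ PP (Y l), cc t l p * (sg T p - th p t)

/-- the barrier gives a bound for the walk -/
lemma AA_walk {C4 : ℝ} (hC : 0 ≤ C4) (h4 : ∀ y : ℕ, 1 ≤ y → ∑ p ∈ PP y, Real.log p / p ≤ C4 * (1 + Real.log y))
    {a t : ℝ} {K : ℕ} {T : Finset ℕ} (h : AA a K T t) : ∀ l ∈ Finset.Icc 1 K, ZZ t l T ≤ a + 24 * C4 - DD t l T := by
  intro l hl
  have h1 := h l hl
  set j := ⌊2 ^ l * t⌋ with hj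
  have h2 : UU l T j = cm l j (fun u => Real.exp (∑ p ∈ PP (Y l), (sg T p * th p u - th p u ^ 2))) := rfl
  rw [h2] at h1
  have hcont : Continuous (fun u => ∑ p ∈ PP (Y l), (sg T p * th p u - th p u ^ 2)) :=
    continuous_finsetSum _ fun p _ => by
      have := continuous_th p
      fun_prop
  have h3 := Real.exp_le_exp.1 ((jensen hcont).trans h1)
  rw [cm_sum l j _ (fun p _ => by have := continuous_th p; fun_prop)] at h3
  have h5 : ∀ p ∈ PP (Y l), cm l j (fun u => sg T p * th p u - th p u ^ 2) =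
      th p t * (sg T p - th p t) + cc t l p * (sg T p - th p t) + (th p t * cm l j (th p) - cm l j (fun u => th p u ^ 2)) := by
    intro p _
    have hc := continuous_th p
    rw [cm_sub l j (by fun_prop) (by fun_prop), cm_mul]
    unfold cc
    rw [← hj]
    ring
  rw [Finset.sum_congr rfl h5, Finset.sum_add_distrib, Finset.sum_add_distrib] at h3
  have h6 : |∑ p ∈ PP (Y l), (th p t * cm l j (th p) - cm l j (fun u => th p u ^ 2))| ≤ 24 * C4 := by
    refine (Finset.abs_sum_le_sum_abs _ _).trans ?_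
    have h7 : ∀ p ∈ PP (Y l), |th p t * cm l j (th p) - cm l j (fun u => th p u ^ 2)| ≤ 12 * (1 / 2 ^ l) * (Real.log p / p) := by
      intro p hp
      have hp2 := two_le_of_mem_PP hp
      have hp0 : (2 : ℝ) ≤ p := by exact_mod_cast hp2
      have hlp : 0 ≤ Real.log p := Real.log_nonneg (by linarith)
      have hs : 0 < Real.sqrt p := Real.sqrt_pos.2 (by linarith)
      have hss : Real.sqrt p * Real.sqrt p = p := Real.mul_self_sqrt (by linarith)
      have a1 := cc_le hp2 t l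
      have a2 := qq_le hp2 t l
      have a3 := abs_th_le' hp2 t
      have e1 : th p t * cm l j (th p) - cm l j (fun u => th p u ^ 2) =
          th p t * cc t l p - (cm l j (fun u => th p u ^ 2) - th p t ^ 2) := by
        unfold cc
        rw [← hj]
        ring
      rw [← hj] at a2
      rw [e1]
      refine (abs_sub _ _).trans ?_
      rw [abs_mul]
      have a4 : |th p t| * |cc t l p| ≤ 2 / Real.sqrt p * (2 / Real.sqrt p * (1 / 2 ^ l * Real.log p)) :=
        mul_le_mul a3 a1 (abs_nonneg _) (by positivity)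
      have a5 : 2 / Real.sqrt p * (2 / Real.sqrt p * (1 / 2 ^ l * Real.log p)) = 4 * (1 / 2 ^ l) * (Real.log p / p) := by
        rw [show 2 / Real.sqrt p * (2 / Real.sqrt p * (1 / 2 ^ l * Real.log p)) = 4 * (1 / 2 ^ l) * (Real.log p / (Real.sqrt p * Real.sqrt p)) by
          field_simp
          ring, hss]
      rw [a5] at a4
      linarith
    refine (Finset.sum_le_sum h7).trans ?_
    rw [← Finset.mul_sum]
    have h8 := h4 (Y l) (Y_pos l)
    rw [log_Y] at h8
    have h9 : 12 * (1 / 2 ^ l) * ∑ p ∈ PP (Y l), Real.log p / p ≤ 12 * (1 / 2 ^ l) * (C4 * (1 + 2 ^ l * Real.log 2)) :=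
      mul_le_mul_of_nonneg_left h8 (by positivity)
    refine h9.trans ?_
    have h10 : 12 * (1 / 2 ^ l) * (C4 * (1 + 2 ^ l * Real.log 2)) = 12 * C4 * (1 / 2 ^ l + Real.log 2) := by
      field_simp
    rw [h10]
    have h11 : (1 : ℝ) / 2 ^ l ≤ 1 := by
      rw [div_le_one (by positivity)]
      exact one_le_pow₀ (by norm_num)
    have h12 := Real.log_two_lt_d9
    have h13 : 1 / 2 ^ l + Real.log 2 ≤ 2 := by linarith
    calc 12 * C4 * (1 / 2 ^ l + Real.log 2) ≤ 12 * C4 * 2 := mul_le_mul_of_nonneg_left h13 (by positivity)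
      _ = _ := by ring
  unfold ZZ DD
  linarith [(abs_le.1 h6).1]

/-- exponential moment of the error -/
lemma aw_exp_DD {C4 : ℝ} (hC : 0 ≤ C4) (h4 : ∀ y : ℕ, 1 ≤ y → ∑ p ∈ PP y, Real.log p / p ≤ C4 * (1 + Real.log y))
    {l K : ℕ} (hl : l ≤ K) (t : ℝ) :
    aw (PP (Y K)) (fun p => th p t) (fun T => Real.exp (-(DD t l T))) ≤ Real.exp (32 * C4) := by
  have e5 : ∀ T ⊆ PP (Y K), Real.exp (-(DD t l T)) = Real.exp (∑ p ∈ PP (Y K), (if p ∈ PP (Y l) then -(cc t l p) else 0) * (sg T p - th p t)) := by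
    intro T _
    congr 1
    unfold DD
    rw [← Finset.sum_subset (PP_Y_mono hl), ← Finset.sum_neg_distrib]
    · exact Finset.sum_congr rfl fun p hp => by rw [if_pos hp]; ring
    · intro p _ hp
      rw [if_neg hp, zero_mul]
  rw [aw_congr e5]
  refine (aw_exp_le (hth t) _).trans (Real.exp_le_exp.2 ?_)
  have e6 : ∑ p ∈ PP (Y K), (if p ∈ PP (Y l) then -(cc t l p) else 0) ^ 2 = ∑ p ∈ PP (Y l), cc t l p ^ 2 := by
    rw [← Finset.sum_subset (PP_Y_mono hl)]
    · exact Finset.sum_congr rfl fun p hp => by rw [if_pos hp]; ring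
    · intro p _ hp
      rw [if_neg hp]
      norm_num
  rw [e6]
  have e7 : ∑ p ∈ PP (Y l), cc t l p ^ 2 ≤ 8 * C4 := by
    have e8 : ∀ p ∈ PP (Y l), cc t l p ^ 2 ≤ 4 * (1 / 2 ^ l) ^ 2 * (2 ^ l * Real.log 2) * (Real.log p / p) := by
      intro p hp
      have hp2 := two_le_of_mem_PP hp
      have hp0 : (2 : ℝ) ≤ p := by exact_mod_cast hp2
      have hlp : 0 ≤ Real.log p := Real.log_nonneg (by linarith)
      refine (cc_sq_le hp2 t l).trans ?_
      rw [mul_assoc (4 * (1 / 2 ^ l) ^ 2)]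
      refine mul_le_mul_of_nonneg_left ?_ (by positivity)
      refine mul_le_mul_of_nonneg_right ?_ (by positivity)
      rw [← log_Y]
      refine Real.log_le_log (by linarith) ?_
      exact_mod_cast (mem_PP.1 hp).2
    refine (Finset.sum_le_sum e8).trans ?_
    rw [← Finset.mul_sum]
    have h8 := h4 (Y l) (Y_pos l)
    rw [log_Y] at h8
    have h2 : 0 ≤ Real.log 2 := Real.log_nonneg (by norm_num)
    have h9 : 4 * (1 / 2 ^ l) ^ 2 * (2 ^ l * Real.log 2) * ∑ p ∈ PP (Y l), Real.log p / p ≤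
        4 * (1 / 2 ^ l) ^ 2 * (2 ^ l * Real.log 2) * (C4 * (1 + 2 ^ l * Real.log 2)) :=
      mul_le_mul_of_nonneg_left h8 (by positivity)
    refine h9.trans ?_
    have h10 : 4 * (1 / 2 ^ l) ^ 2 * (2 ^ l * Real.log 2) * (C4 * (1 + 2 ^ l * Real.log 2)) =
        4 * C4 * (Real.log 2 * (1 / 2 ^ l + Real.log 2)) := by
      field_simp
    rw [h10]
    have h11 : (1 : ℝ) / 2 ^ l ≤ 1 := by
      rw [div_le_one (by positivity)]
      exact one_le_pow₀ (by norm_num)
    have h12 := Real.log_two_lt_d9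
    have h13 : Real.log 2 * (1 / 2 ^ l + Real.log 2) ≤ 1 * 2 :=
      mul_le_mul (by linarith) (by linarith) (by positivity) (by norm_num)
    calc 4 * C4 * (Real.log 2 * (1 / 2 ^ l + Real.log 2)) ≤ 4 * C4 * (1 * 2) := mul_le_mul_of_nonneg_left h13 (by positivity)
      _ = _ := by ring
  linarith

end Pool.Agent.Helper66.AF
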