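import Pool.Agent.Helper96.AF.Defs

/-!
# Averages with respect to tilted product measures on signs
-/

set_option autoImplicit false

namespace Pool.Agent.Helper66.AF

open Finset Pool.Agent.Helper5.RM Pool.Agent.Helper96.AF

lemma sg_ins {S T : Finset ℕ} {p q : ℕ} (hq : q ∉ S) (hp : p ∈ S) : sg (insert q T) p = sg T p :=
  sg_insert_of_ne (by rintro rfl; exact hq hp)

lemma aw_empty (θ : ℕ → ℝ) (F : Finset ℕ → ℝ) : aw ∅ θ F = F ∅ := by
  unfold aw
  rw [av_empty]
  simp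

lemma aw_insert {S : Finset ℕ} {q : ℕ} (h : q ∉ S) (θ : ℕ → ℝ) (F : Finset ℕ → ℝ) :
    aw (insert q S) θ F = (1 + θ q) / 2 * aw S θ F + (1 - θ q) / 2 * aw S θ (fun T => F (insert q T)) := by
  unfold aw
  rw [av_insert h]
  have e1 : av S (fun T => (∏ p ∈ insert q S, (1 + sg T p * θ p)) * F T) =
      (1 + θ q) * av S (fun T => (∏ p ∈ S, (1 + sg T p * θ p)) * F T) := by
    rw [← av_mul_left]
    refine av_congr fun T hT => ?_
    have hqT : q ∉ T := fun hh => h (hT hh)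
    rw [Finset.prod_insert h, sg_not_mem hqT]
    ring
  have e2 : av S (fun T => (∏ p ∈ insert q S, (1 + sg (insert q T) p * θ p)) * F (insert q T)) =
      (1 - θ q) * av S (fun T => (∏ p ∈ S, (1 + sg T p * θ p)) * F (insert q T)) := by
    rw [← av_mul_left]
    refine av_congr fun T hT => ?_
    have e3 : ∏ p ∈ S, (1 + sg (insert q T) p * θ p) = ∏ p ∈ S, (1 + sg T p * θ p) := by
      refine Finset.prod_congr rfl fun p hp => ?_
      rw [sg_ins h hp]
    rw [Finset.prod_insert h, sg_mem (Finset.mem_insert_self q T), e3]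
    ring
  rw [e1, e2]
  ring

lemma aw_add (S : Finset ℕ) (θ : ℕ → ℝ) (F G : Finset ℕ → ℝ) :
    aw S θ (fun T => F T + G T) = aw S θ F + aw S θ G := by
  unfold aw
  rw [← av_add]
  exact av_congr fun T _ => by ring

lemma aw_mul_left (S : Finset ℕ) (θ : ℕ → ℝ) (c : ℝ) (F : Finset ℕ → ℝ) :
    aw S θ (fun T => c * F T) = c * aw S θ F := by
  unfold aw
  rw [← av_mul_left]
  exact av_congr fun T _ => by ring

lemma aw_sub (S : Finset ℕ) (θ : ℕ → ℝ) (F G : Finset ℕ → ℝ) :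
    aw S θ (fun T => F T - G T) = aw S θ F - aw S θ G := by
  have h := aw_add S θ F (fun T => (-1) * G T)
  rw [aw_mul_left] at h
  have e : (fun T => F T - G T) = (fun T => F T + (-1) * G T) := by
    funext T; ring
  rw [e, h]
  ring

lemma aw_sum {ι : Type*} (S : Finset ℕ) (θ : ℕ → ℝ) (s : Finset ι) (F : ι → Finset ℕ → ℝ) :
    aw S θ (fun T => ∑ i ∈ s, F i T) = ∑ i ∈ s, aw S θ (F i) := by
  unfold aw
  rw [← av_sum]
  exact av_congr fun T _ => by rw [Finset.mul_sum]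

lemma aw_congr {S : Finset ℕ} {θ : ℕ → ℝ} {F G : Finset ℕ → ℝ} (h : ∀ T ⊆ S, F T = G T) : aw S θ F = aw S θ G := by
  unfold aw
  exact av_congr fun T hT => by rw [h T hT]

lemma aw_const (S : Finset ℕ) (θ : ℕ → ℝ) (c : ℝ) : aw S θ (fun _ => c) = c := by
  induction S using Finset.induction_on with
  | empty => rw [aw_empty]
  | insert q S hq ih =>
    rw [aw_insert hq, ih]
    ring

lemma abs_le_fac {x s : ℝ} (hx : |x| ≤ 1) (hs : |s| = 1) : 0 ≤ 1 + s * x := by
  have h : |s * x| ≤ 1 := by rw [abs_mul, hs, one_mul]; exact hx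
  linarith [(abs_le.1 h).1]

lemma aw_mono {S : Finset ℕ} {θ : ℕ → ℝ} (hθ : ∀ p ∈ S, |θ p| ≤ 1) {F G : Finset ℕ → ℝ} (h : ∀ T ⊆ S, F T ≤ G T) :
    aw S θ F ≤ aw S θ G := by
  unfold aw
  refine av_mono fun T hT => mul_le_mul_of_nonneg_left (h T hT) ?_
  exact Finset.prod_nonneg fun p hp => abs_le_fac (hθ p hp) (abs_sg T p)

lemma aw_nonneg {S : Finset ℕ} {θ : ℕ → ℝ} (hθ : ∀ p ∈ S, |θ p| ≤ 1) {F : Finset ℕ → ℝ} (h : ∀ T ⊆ S, 0 ≤ F T) :
    0 ≤ aw S θ F := by
  rw [← aw_const S θ 0]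
  exact aw_mono hθ h

/-- product functions -/
lemma aw_prod (S : Finset ℕ) (θ : ℕ → ℝ) (f : ℕ → ℝ → ℝ) :
    aw S θ (fun T => ∏ p ∈ S, f p (sg T p)) = ∏ p ∈ S, ((1 + θ p) / 2 * f p 1 + (1 - θ p) / 2 * f p (-1)) := by
  induction S using Finset.induction_on with
  | empty => rw [aw_empty]; simp
  | insert q S hq ih =>
    rw [aw_insert hq, Finset.prod_insert hq, ← ih]
    have e1 : aw S θ (fun T => ∏ p ∈ insert q S, f p (sg T p)) = f q 1 * aw S θ (fun T => ∏ p ∈ S, f p (sg T p)) := by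
      rw [← aw_mul_left]
      refine aw_congr fun T hT => ?_
      have hqT : q ∉ T := fun hh => hq (hT hh)
      rw [Finset.prod_insert hq, sg_not_mem hqT]
    have e2 : aw S θ (fun T => ∏ p ∈ insert q S, f p (sg (insert q T) p)) = f q (-1) * aw S θ (fun T => ∏ p ∈ S, f p (sg T p)) := by
      rw [← aw_mul_left]
      refine aw_congr fun T hT => ?_
      rw [Finset.prod_insert hq, sg_mem (Finset.mem_insert_self q T)]
      congr 1
      refine Finset.prod_congr rfl fun p hp => ?_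
      rw [sg_ins hq hp]
    rw [e1, e2]
    ring

lemma exp_le_add_exp_sq (x : ℝ) : Real.exp x ≤ x + Real.exp (x ^ 2) := by
  have h2 := Real.add_one_le_exp (x ^ 2)
  rcases le_or_gt |x| 1 with h | h
  · have h1 := Real.abs_exp_sub_one_sub_id_le h
    linarith [(abs_le.1 h1).2]
  · rcases le_or_gt 0 x with h0 | h0
    · rw [abs_of_nonneg h0] at h
      have : Real.exp x ≤ Real.exp (x ^ 2) := Real.exp_le_exp.2 (by nlinarith)
      linarith
    · rw [abs_of_neg h0] at h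
      have h3 : Real.exp x ≤ 1 := Real.exp_le_one_iff.2 h0.le
      nlinarith

lemma two_point {θ : ℝ} (hθ : |θ| ≤ 1) (c : ℝ) :
    (1 + θ) / 2 * Real.exp (c * (1 - θ)) + (1 - θ) / 2 * Real.exp (c * (-1 - θ)) ≤ Real.exp (4 * c ^ 2) := by
  obtain ⟨h1, h2⟩ := abs_le.1 hθ
  have a1 := exp_le_add_exp_sq (c * (1 - θ))
  have a2 := exp_le_add_exp_sq (c * (-1 - θ))
  have b1 : Real.exp ((c * (1 - θ)) ^ 2) ≤ Real.exp (4 * c ^ 2) := by
    apply Real.exp_le_exp.2
    have : (1 - θ) ^ 2 ≤ 4 := by nlinarith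
    nlinarith [sq_nonneg c]
  have b2 : Real.exp ((c * (-1 - θ)) ^ 2) ≤ Real.exp (4 * c ^ 2) := by
    apply Real.exp_le_exp.2
    have : (-1 - θ) ^ 2 ≤ 4 := by nlinarith
    nlinarith [sq_nonneg c]
  have c1 : (1 + θ) / 2 * Real.exp (c * (1 - θ)) ≤ (1 + θ) / 2 * (c * (1 - θ) + Real.exp (4 * c ^ 2)) :=
    mul_le_mul_of_nonneg_left (by linarith) (by linarith)
  have c2 : (1 - θ) / 2 * Real.exp (c * (-1 - θ)) ≤ (1 - θ) / 2 * (c * (-1 - θ) + Real.exp (4 * c ^ 2)) :=
    mul_le_mul_of_nonneg_left (by linarith) (by linarith)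
  calc _ ≤ (1 + θ) / 2 * (c * (1 - θ) + Real.exp (4 * c ^ 2)) + (1 - θ) / 2 * (c * (-1 - θ) + Real.exp (4 * c ^ 2)) := add_le_add c1 c2
    _ = _ := by ring

/-- Hoeffding's inequality (not the best constant) -/
lemma aw_exp_le {S : Finset ℕ} {θ : ℕ → ℝ} (hθ : ∀ p ∈ S, |θ p| ≤ 1) (c : ℕ → ℝ) :
    aw S θ (fun T => Real.exp (∑ p ∈ S, c p * (sg T p - θ p))) ≤ Real.exp (4 * ∑ p ∈ S, c p ^ 2) := by
  have e1 : aw S θ (fun T => Real.exp (∑ p ∈ S, c p * (sg T p - θ p))) =
      aw S θ (fun T => ∏ p ∈ S, Real.exp (c p * (sg T p - θ p))) :=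
    aw_congr fun T _ => by rw [Real.exp_sum]
  have e2 : aw S θ (fun T => ∏ p ∈ S, Real.exp (c p * (sg T p - θ p))) =
      ∏ p ∈ S, ((1 + θ p) / 2 * Real.exp (c p * (1 - θ p)) + (1 - θ p) / 2 * Real.exp (c p * (-1 - θ p))) :=
    aw_prod S θ (fun (p : ℕ) (x : ℝ) => Real.exp (c p * (x - θ p)))
  rw [e1, e2, Finset.mul_sum, Real.exp_sum]
  refine Finset.prod_le_prod (fun p hp => ?_) fun p hp => two_point (hθ p hp) (c p)
  obtain ⟨h1, h2⟩ := abs_le.1 (hθ p hp)
  have : 0 ≤ (1 + θ p) / 2 := by linarith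
  have : 0 ≤ (1 - θ p) / 2 := by linarith
  positivity

/-- centred factors -/
lemma aw_center {S : Finset ℕ} {q : ℕ} (hq : q ∈ S) (θ : ℕ → ℝ) (G : Finset ℕ → ℝ)
    (hG : ∀ T, q ∉ T → G (insert q T) = G T) : aw S θ (fun T => G T * (sg T q - θ q)) = 0 := by
  have h0 : q ∉ S.erase q := Finset.notMem_erase q S
  rw [← Finset.insert_erase hq, aw_insert h0]
  have e1 : aw (S.erase q) θ (fun T => G T * (sg T q - θ q)) = (1 - θ q) * aw (S.erase q) θ G := by
    rw [← aw_mul_left]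
    refine aw_congr fun T hT => ?_
    rw [sg_not_mem (fun hh => h0 (hT hh))]
    ring
  have e2 : aw (S.erase q) θ (fun T => G (insert q T) * (sg (insert q T) q - θ q)) = (-1 - θ q) * aw (S.erase q) θ G := by
    rw [← aw_mul_left]
    refine aw_congr fun T hT => ?_
    rw [sg_mem (Finset.mem_insert_self q T), hG T (fun hh => h0 (hT hh))]
    ring
  rw [e1, e2]
  ring

/-- Harris' inequality -/
lemma aw_harris {S : Finset ℕ} {θ : ℕ → ℝ} (hθ : ∀ p ∈ S, |θ p| ≤ 1) (σ : ℕ → ℝ) (hσ : ∀ p ∈ S, σ p ≠ 0) : ∀ F G : Finset ℕ → ℝ,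
    (∀ q ∈ S, ∀ T, T ⊆ S → q ∉ T → 0 ≤ σ q * (F T - F (insert q T))) →
    (∀ q ∈ S, ∀ T, T ⊆ S → q ∉ T → 0 ≤ σ q * (G T - G (insert q T))) →
    aw S θ F * aw S θ G ≤ aw S θ (fun T => F T * G T) := by
  induction S using Finset.induction_on with
  | empty => intro F G _ _; simp only [aw_empty]; exact le_rfl
  | insert q S hq ih =>
    intro F G hF hG
    have hθ' : ∀ p ∈ S, |θ p| ≤ 1 := fun p hp => hθ p (Finset.mem_insert_of_mem hp)
    have hσ' : ∀ p ∈ S, σ p ≠ 0 := fun p hp => hσ p (Finset.mem_insert_of_mem hp)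
    obtain ⟨h1, h2⟩ := abs_le.1 (hθ q (Finset.mem_insert_self q S))
    have i0 := ih hθ' hσ' F G
      (fun p hp T hT hpT => hF p (Finset.mem_insert_of_mem hp) T (hT.trans (Finset.subset_insert _ _)) hpT)
      (fun p hp T hT hpT => hG p (Finset.mem_insert_of_mem hp) T (hT.trans (Finset.subset_insert _ _)) hpT)
    have i1 := ih hθ' hσ' (fun T => F (insert q T)) (fun T => G (insert q T))
      (fun p hp T hT hpT => by
        have hpq : p ≠ q := fun hh => hq (hh ▸ hp)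
        have := hF p (Finset.mem_insert_of_mem hp) (insert q T) (Finset.insert_subset_insert _ hT) (by simp [hpq, hpT])
        rw [Finset.insert_comm] at this
        exact this)
      (fun p hp T hT hpT => by
        have hpq : p ≠ q := fun hh => hq (hh ▸ hp)
        have := hG p (Finset.mem_insert_of_mem hp) (insert q T) (Finset.insert_subset_insert _ hT) (by simp [hpq, hpT])
        rw [Finset.insert_comm] at this
        exact this)
    rw [aw_insert hq, aw_insert hq, aw_insert hq]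
    have hF' : 0 ≤ σ q * (aw S θ F - aw S θ (fun T => F (insert q T))) := by
      rw [← aw_sub, ← aw_mul_left]
      exact aw_nonneg hθ' fun T hT => hF q (Finset.mem_insert_self q S) T (hT.trans (Finset.subset_insert _ _)) (fun hh => hq (hT hh))
    have hG' : 0 ≤ σ q * (aw S θ G - aw S θ (fun T => G (insert q T))) := by
      rw [← aw_sub, ← aw_mul_left]
      exact aw_nonneg hθ' fun T hT => hG q (Finset.mem_insert_self q S) T (hT.trans (Finset.subset_insert _ _)) (fun hh => hq (hT hh))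
    set f0 := aw S θ F
    set f1 := aw S θ (fun T => F (insert q T))
    set g0 := aw S θ G
    set g1 := aw S θ (fun T => G (insert q T))
    set k0 := aw S θ (fun T => F T * G T)
    set k1 := aw S θ (fun T => F (insert q T) * G (insert q T))
    have hs : 0 < σ q ^ 2 := by
      have := hσ q (Finset.mem_insert_self q S)
      positivity
    have hp : 0 ≤ (f0 - f1) * (g0 - g1) := by
      have := mul_nonneg hF' hG'
      have e : σ q * (f0 - f1) * (σ q * (g0 - g1)) = σ q ^ 2 * ((f0 - f1) * (g0 - g1)) := by ring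
      rw [e] at this
      exact nonneg_of_mul_nonneg_right this hs
    have hab : 0 ≤ (1 + θ q) / 2 * ((1 - θ q) / 2) := mul_nonneg (by linarith) (by linarith)
    have e : ((1 + θ q) / 2 * f0 + (1 - θ q) / 2 * f1) * ((1 + θ q) / 2 * g0 + (1 - θ q) / 2 * g1) =
        (1 + θ q) / 2 * (f0 * g0) + (1 - θ q) / 2 * (f1 * g1) - (1 + θ q) / 2 * ((1 - θ q) / 2) * ((f0 - f1) * (g0 - g1)) := by ring
    rw [e]
    have j0 : (1 + θ q) / 2 * (f0 * g0) ≤ (1 + θ q) / 2 * k0 := mul_le_mul_of_nonneg_left i0 (by linarith)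
    have j1 : (1 - θ q) / 2 * (f1 * g1) ≤ (1 - θ q) / 2 * k1 := mul_le_mul_of_nonneg_left i1 (by linarith)
    have j2 := mul_nonneg hab hp
    linarith

/-- the second moment of a centred sum -/
lemma aw_sq {S : Finset ℕ} (θ : ℕ → ℝ) (c : ℕ → ℝ) :
    aw S θ (fun T => (∑ p ∈ S, c p * (sg T p - θ p)) ^ 2) = ∑ p ∈ S, c p ^ 2 * (1 - θ p ^ 2) := by
  induction S using Finset.induction_on with
  | empty => rw [aw_empty]; simp
  | insert q S hq ih =>
    rw [aw_insert hq, Finset.sum_insert hq]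
    have e1 : aw S θ (fun T => (∑ p ∈ insert q S, c p * (sg T p - θ p)) ^ 2) =
        (c q * (1 - θ q)) ^ 2 + 2 * (c q * (1 - θ q)) * aw S θ (fun T => ∑ p ∈ S, c p * (sg T p - θ p)) +
          aw S θ (fun T => (∑ p ∈ S, c p * (sg T p - θ p)) ^ 2) := by
      rw [← aw_mul_left, ← aw_const S θ ((c q * (1 - θ q)) ^ 2), ← aw_add, ← aw_add]
      refine aw_congr fun T hT => ?_
      rw [Finset.sum_insert hq, sg_not_mem (fun hh => hq (hT hh))]
      ring
    have e2 : aw S θ (fun T => (∑ p ∈ insert q S, c p * (sg (insert q T) p - θ p)) ^ 2) =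
        (c q * (-1 - θ q)) ^ 2 + 2 * (c q * (-1 - θ q)) * aw S θ (fun T => ∑ p ∈ S, c p * (sg T p - θ p)) +
          aw S θ (fun T => (∑ p ∈ S, c p * (sg T p - θ p)) ^ 2) := by
      rw [← aw_mul_left, ← aw_const S θ ((c q * (-1 - θ q)) ^ 2), ← aw_add, ← aw_add]
      refine aw_congr fun T hT => ?_
      have e3 : ∑ p ∈ S, c p * (sg (insert q T) p - θ p) = ∑ p ∈ S, c p * (sg T p - θ p) :=
        Finset.sum_congr rfl fun p hp => by rw [sg_ins hq hp]
      rw [Finset.sum_insert hq, sg_mem (Finset.mem_insert_self q T), e3]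
      ring
    have e3 : aw S θ (fun T => ∑ p ∈ S, c p * (sg T p - θ p)) = 0 := by
      rw [aw_sum]
      refine Finset.sum_eq_zero fun p hp => ?_
      exact aw_center hp θ (fun _ => c p) (fun _ _ => rfl)
    rw [e1, e2, e3, ih]
    ring

end Pool.Agent.Helper66.AF
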