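import Pool.Agent.Helper66.AF.TW
import Pool.Agent.Helper96.AF.ZI

/-!
# The walk under the tilted measure, one fixed `t`
-/

set_option autoImplicit false

namespace Pool.Agent.Helper66.AF

open Finset Pool.Agent.Helper5.RM Pool.Agent.Helper96.AF

/-- the centred walk -/
noncomputable def ZZ (t : ℝ) (l : ℕ) (T : Finset ℕ) : ℝ := ∑ p ∈ PP (Y l), th p t * (sg T p - th p t)

/-- the increments -/
noncomputable def XX (t : ℝ) (l : ℕ) (T : Finset ℕ) : ℝ := ∑ p ∈ BL l, th p t * (sg T p - th p t)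

/-- the walk stays below `A` -/
def ST (t A : ℝ) (l : ℕ) (T : Finset ℕ) : Prop := ∀ j ∈ Finset.Icc 1 l, ZZ t j T ≤ A

lemma ZZ_succ (t : ℝ) (l : ℕ) (T : Finset ℕ) : ZZ t (l + 1) T = ZZ t l T + XX t l T := by
  unfold ZZ XX
  rw [PP_Y_succ, Finset.sum_union (BL_disj l)]

lemma ZZ_insert {t : ℝ} {l q : ℕ} (hq : q ∉ PP (Y l)) (T : Finset ℕ) : ZZ t l (insert q T) = ZZ t l T := by
  unfold ZZ
  exact Finset.sum_congr rfl fun p hp => by rw [sg_ins hq hp]

lemma BL_sub {l K : ℕ} (h : l < K) : BL l ⊆ PP (Y K) := by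
  refine Finset.Subset.trans ?_ (PP_Y_mono (Nat.succ_le_of_lt h))
  unfold BL
  exact Finset.sdiff_subset

lemma hth {K : ℕ} (t : ℝ) : ∀ p ∈ PP (Y K), |th p t| ≤ 1 := fun p hp => (abs_th_lt_one (two_le_of_mem_PP hp) t).le

lemma aw_ZZ (t : ℝ) (K : ℕ) : aw (PP (Y K)) (fun p => th p t) (ZZ t K) = 0 := by
  unfold ZZ
  rw [aw_sum]
  refine Finset.sum_eq_zero fun p hp => ?_
  exact aw_center hp (fun p => th p t) (fun _ => th p t) (fun _ _ => rfl)

lemma ZZ_zero_le (t : ℝ) (T : Finset ℕ) : ZZ t 0 T ≤ 4 := by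
  unfold ZZ
  have h1 : ∀ p ∈ PP (Y 0), th p t * (sg T p - th p t) ≤ 2 := by
    intro p hp
    have h2 := hth t p hp
    have h3 := abs_sg T p
    refine (le_abs_self _).trans ?_
    rw [abs_mul]
    have h4 : |sg T p - th p t| ≤ 2 := by
      have := abs_sub (sg T p) (th p t)
      linarith
    calc |th p t| * |sg T p - th p t| ≤ 1 * 2 := mul_le_mul h2 h4 (abs_nonneg _) (by norm_num)
      _ = 2 := by norm_num
  refine (Finset.sum_le_sum h1).trans ?_
  rw [Finset.sum_const, nsmul_eq_mul]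
  have h2 : (PP (Y 0)).card ≤ 2 := by
    have : (PP (Y 0)).card ≤ (Finset.Icc 1 (Y 0)).card := Finset.card_filter_le _ _
    rw [Nat.card_Icc] at this
    have h3 : Y 0 = 2 := by unfold Y; norm_num
    rw [h3] at this ⊢
    omega
  have h3 : (((PP (Y 0)).card : ℕ) : ℝ) ≤ 2 := by exact_mod_cast h2
  linarith

open Classical in
/-- one step of the walk -/
lemma walk_step {K l : ℕ} (hl : l < K) {t A b : ℝ} (hA : 4 ≤ A) (hb : 0 ≤ b) {M : ℝ} (hM : ∑ p ∈ BL l, th p t ^ 2 ≤ M) :
    aw (PP (Y K)) (fun p => th p t) (fun T => if ST t A (l + 1) T then A + b - ZZ t (l + 1) T else 0) ≤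
      aw (PP (Y K)) (fun p => th p t) (fun T => if ST t A l T then A + b - ZZ t l T else 0) +
        Real.exp (-b) * Real.exp (4 * M) := by
  have hpt : ∀ T ⊆ PP (Y K), (if ST t A (l + 1) T then A + b - ZZ t (l + 1) T else 0) ≤
      ((if ST t A l T then A + b - ZZ t l T else 0) + (-1) * ((if ST t A l T then 1 else 0) * XX t l T)) +
        Real.exp (-b) * Real.exp (XX t l T) := by
    intro T _
    rw [← Real.exp_add]
    have he := Real.add_one_le_exp (-b + XX t l T)
    have he0 := Real.exp_pos (-b + XX t l T)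
    by_cases h1 : ST t A l T
    · rw [if_pos h1, if_pos h1]
      have hZ : ZZ t l T ≤ A := by
        rcases Nat.eq_zero_or_pos l with rfl | h0
        · exact (ZZ_zero_le t T).trans hA
        · exact h1 l (Finset.mem_Icc.2 ⟨h0, le_rfl⟩)
      by_cases h2 : ST t A (l + 1) T
      · rw [if_pos h2, ZZ_succ]
        linarith
      · rw [if_neg h2]
        linarith
    · have h2 : ¬ ST t A (l + 1) T := fun h => h1 fun j hj => h j (Finset.Icc_subset_Icc le_rfl (Nat.le_succ l) hj)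
      rw [if_neg h1, if_neg h1, if_neg h2]
      linarith
  refine (aw_mono (hth t) hpt).trans ?_
  rw [aw_add, aw_add, aw_mul_left, aw_mul_left]
  have e1 : aw (PP (Y K)) (fun p => th p t) (fun T => (if ST t A l T then 1 else 0) * XX t l T) = 0 := by
    have e2 : ∀ T ⊆ PP (Y K), (if ST t A l T then 1 else 0) * XX t l T =
        ∑ p ∈ BL l, ((if ST t A l T then 1 else 0) * th p t) * (sg T p - th p t) := by
      intro T _
      unfold XX
      rw [Finset.mul_sum]
      exact Finset.sum_congr rfl fun p _ => by ring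
    rw [aw_congr e2, aw_sum]
    refine Finset.sum_eq_zero fun p hp => ?_
    refine aw_center (BL_sub hl hp) (fun p => th p t) (fun T => (if ST t A l T then 1 else 0) * th p t) ?_
    intro T _
    have e3 : ST t A l (insert p T) ↔ ST t A l T := by
      unfold ST
      refine forall₂_congr fun j hj => ?_
      rw [ZZ_insert]
      rw [mem_BL] at hp
      rw [mem_PP]
      have := Y_mono (Finset.mem_Icc.1 hj).2
      omega
    simp only [e3]
  have e4 : aw (PP (Y K)) (fun p => th p t) (fun T => Real.exp (XX t l T)) ≤ Real.exp (4 * M) := by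
    have e5 : ∀ T ⊆ PP (Y K), Real.exp (XX t l T) = Real.exp (∑ p ∈ PP (Y K), (if p ∈ BL l then th p t else 0) * (sg T p - th p t)) := by
      intro T _
      congr 1
      unfold XX
      rw [← Finset.sum_subset (BL_sub hl)]
      · exact Finset.sum_congr rfl fun p hp => by rw [if_pos hp]
      · intro p _ hp
        rw [if_neg hp, zero_mul]
    rw [aw_congr e5]
    refine (aw_exp_le (hth t) _).trans (Real.exp_le_exp.2 (mul_le_mul_of_nonneg_left ?_ (by norm_num)))
    refine le_trans (le_of_eq ?_) hM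
    rw [← Finset.sum_subset (BL_sub hl)]
    · exact Finset.sum_congr rfl fun p hp => by rw [if_pos hp]
    · intro p _ hp
      rw [if_neg hp]
      norm_num
  rw [e1, mul_zero, add_zero]
  have := mul_le_mul_of_nonneg_left e4 (Real.exp_pos (-b)).le
  linarith

open Classical in
/-- optional stopping -/
lemma walk {K : ℕ} {t A b : ℝ} (hA : 4 ≤ A) (hb : 0 ≤ b) {M : ℝ} (hM : ∀ l < K, ∑ p ∈ BL l, th p t ^ 2 ≤ M) :
    ∀ l ≤ K, aw (PP (Y K)) (fun p => th p t) (fun T => if ST t A l T then A + b - ZZ t l T else 0) ≤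
      A + b + l * (Real.exp (-b) * Real.exp (4 * M)) := by
  intro l
  induction l with
  | zero =>
    intro _
    have e1 : ∀ T ⊆ PP (Y K), (if ST t A 0 T then A + b - ZZ t 0 T else 0) = (A + b) - ZZ t 0 T := by
      intro T _
      rw [if_pos]
      intro j hj
      rw [Finset.mem_Icc] at hj
      omega
    rw [aw_congr e1, aw_sub, aw_const]
    have e2 : aw (PP (Y K)) (fun p => th p t) (ZZ t 0) = 0 := by
      unfold ZZ
      rw [aw_sum]
      refine Finset.sum_eq_zero fun p hp => ?_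
      exact aw_center (PP_Y_mono (Nat.zero_le K) hp) (fun p => th p t) (fun _ => th p t) (fun _ _ => rfl)
    have e3 : aw (PP (Y K)) (fun p => th p t) (fun T => ZZ t 0 T) = 0 := e2
    rw [e3]
    push_cast
    linarith
  | succ l ih =>
    intro hl
    have h1 := ih (by omega)
    have h2 := walk_step (t := t) (A := A) (b := b) (show l < K by omega) hA hb (hM l (by omega))
    push_cast
    linarith

lemma abs_ge (z : ℝ) {L : ℝ} (hL : 0 < L) : z ^ 2 / L - z ^ 4 / L ^ 3 ≤ |z| := by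
  have h0 : |z| = L * (|z| / L) := by field_simp
  set w := |z| / L with hw
  have hw0 : 0 ≤ w := by positivity
  have h1 : z ^ 2 / L = L * w ^ 2 := by
    rw [hw, div_pow, sq_abs]
    field_simp
  have h2 : z ^ 4 / L ^ 3 = L * w ^ 4 := by
    have : |z| ^ 4 = z ^ 4 := by
      rw [show (4 : ℕ) = 2 * 2 by norm_num, pow_mul, pow_mul, sq_abs]
    rw [hw, div_pow, this]
    field_simp
  rw [h0, h1, h2]
  have h3 : w ^ 2 - w ^ 4 ≤ w := by
    rcases le_or_gt w 1 with h | h
    · nlinarith [pow_nonneg hw0 4, mul_nonneg hw0 (sub_nonneg.2 h)]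
    · have : w ^ 2 ≤ w ^ 4 := pow_le_pow_right₀ h.le (by norm_num)
      linarith
  nlinarith

/-- lower bound for the first absolute moment -/
lemma abs_moment {S : Finset ℕ} {θ : ℕ → ℝ} (hθ : ∀ p ∈ S, θ p ^ 2 ≤ 8 / 9) (hs : 0 < ∑ p ∈ S, θ p ^ 2) :
    Real.sqrt (∑ p ∈ S, θ p ^ 2) / 5000 ≤ aw S θ (fun T => |∑ p ∈ S, θ p * (sg T p - θ p)|) := by
  have hθ1 : ∀ p ∈ S, |θ p| ≤ 1 := by
    intro p hp
    have := hθ p hp
    rw [← sq_abs] at this
    nlinarith [abs_nonneg (θ p)]
  set s := Real.sqrt (∑ p ∈ S, θ p ^ 2) with hsdef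
  have hs0 : 0 < s := Real.sqrt_pos.2 hs
  have hs2 : s ^ 2 = ∑ p ∈ S, θ p ^ 2 := Real.sq_sqrt hs.le
  set L := 200 * s with hL
  have hL0 : 0 < L := by positivity
  have h2 : s ^ 2 / 9 ≤ aw S θ (fun T => (∑ p ∈ S, θ p * (sg T p - θ p)) ^ 2) := by
    rw [aw_sq, hs2, Finset.sum_div]
    refine Finset.sum_le_sum fun p hp => ?_
    have := hθ p hp
    nlinarith [sq_nonneg (θ p)]
  have h4 : aw S θ (fun T => (∑ p ∈ S, θ p * (sg T p - θ p)) ^ 4) ≤ 2640 * s ^ 4 := by
    have hpt : ∀ T ⊆ S, (∑ p ∈ S, θ p * (sg T p - θ p)) ^ 4 ≤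
        (24 * s ^ 4) * (Real.exp (∑ p ∈ S, (θ p / s) * (sg T p - θ p)) + Real.exp (∑ p ∈ S, (-(θ p / s)) * (sg T p - θ p))) := by
      intro T _
      set z := ∑ p ∈ S, θ p * (sg T p - θ p) with hz
      have e1 : ∑ p ∈ S, (θ p / s) * (sg T p - θ p) = z / s := by
        rw [hz, Finset.sum_div]
        exact Finset.sum_congr rfl fun p _ => by ring
      have e2 : ∑ p ∈ S, (-(θ p / s)) * (sg T p - θ p) = -(z / s) := by
        rw [← e1, ← Finset.sum_neg_distrib]
        exact Finset.sum_congr rfl fun p _ => by ring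
      rw [e1, e2]
      have e3 := Real.pow_div_factorial_le_exp (|z / s|) (abs_nonneg _) 4
      have e4 : Real.exp |z / s| ≤ Real.exp (z / s) + Real.exp (-(z / s)) := by
        rcases abs_cases (z / s) with h | h
        · rw [h.1]; linarith [Real.exp_pos (-(z / s))]
        · rw [h.1]; linarith [Real.exp_pos (z / s)]
      have e5 : |z / s| ^ 4 = z ^ 4 / s ^ 4 := by
        rw [show (4 : ℕ) = 2 * 2 by norm_num, pow_mul, sq_abs, div_pow, div_pow, pow_mul, pow_mul]
      rw [e5] at e3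
      have e6 : (Nat.factorial 4 : ℝ) = 24 := by norm_num [Nat.factorial]
      rw [e6] at e3
      have e7 : z ^ 4 / s ^ 4 ≤ 24 * (Real.exp (z / s) + Real.exp (-(z / s))) := by
        have := e3.trans e4
        linarith
      rw [div_le_iff₀ (by positivity)] at e7
      linarith
    refine (aw_mono hθ1 hpt).trans ?_
    rw [aw_mul_left, aw_add]
    have e1 := aw_exp_le hθ1 (fun p => θ p / s)
    have e2 := aw_exp_le hθ1 (fun p => -(θ p / s))
    have e3 : ∑ p ∈ S, (θ p / s) ^ 2 = 1 := by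
      have : ∀ p ∈ S, (θ p / s) ^ 2 = θ p ^ 2 / s ^ 2 := fun p _ => by rw [div_pow]
      rw [Finset.sum_congr rfl this, ← Finset.sum_div, ← hs2]
      field_simp
    have e4 : ∑ p ∈ S, (-(θ p / s)) ^ 2 = 1 := by
      rw [← e3]
      exact Finset.sum_congr rfl fun p _ => by ring
    simp only [e3, e4] at e1 e2
    have e5 : Real.exp (4 * 1) ≤ 55 := by
      rw [Real.exp_mul]
      have h := Real.exp_one_lt_d9
      have h0 := Real.exp_pos 1
      have e6 : Real.exp 4 = Real.exp 1 ^ 4 := by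
        rw [← Real.exp_nat_mul]
        norm_num
      rw [Real.rpow_one, e6]
      calc Real.exp 1 ^ 4 ≤ (2.7182818286 : ℝ) ^ 4 := pow_le_pow_left₀ h0.le h.le 4
        _ ≤ 55 := by norm_num
    have e7 : aw S θ (fun T => Real.exp (∑ p ∈ S, θ p / s * (sg T p - θ p))) +
        aw S θ (fun T => Real.exp (∑ p ∈ S, -(θ p / s) * (sg T p - θ p))) ≤ 110 := by
      refine (add_le_add (e1.trans e5) (e2.trans e5)).trans ?_
      norm_num
    calc 24 * s ^ 4 * _ ≤ 24 * s ^ 4 * 110 := mul_le_mul_of_nonneg_left e7 (by positivity)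
      _ = _ := by ring
  have h5 : aw S θ (fun T => (1 / L) * (∑ p ∈ S, θ p * (sg T p - θ p)) ^ 2 - (1 / L ^ 3) * (∑ p ∈ S, θ p * (sg T p - θ p)) ^ 4) ≤
      aw S θ (fun T => |∑ p ∈ S, θ p * (sg T p - θ p)|) := by
    refine aw_mono hθ1 fun T _ => ?_
    have := abs_ge (∑ p ∈ S, θ p * (sg T p - θ p)) hL0
    rw [one_div_mul_eq_div, one_div_mul_eq_div]
    exact this
  rw [aw_sub, aw_mul_left, aw_mul_left] at h5
  refine le_trans ?_ h5
  have h6 : (1 / L) * (s ^ 2 / 9) - (1 / L ^ 3) * (2640 * s ^ 4) ≤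
      1 / L * aw S θ (fun T => (∑ p ∈ S, θ p * (sg T p - θ p)) ^ 2) - 1 / L ^ 3 * aw S θ (fun T => (∑ p ∈ S, θ p * (sg T p - θ p)) ^ 4) := by
    have a1 := mul_le_mul_of_nonneg_left h2 (by positivity : 0 ≤ 1 / L)
    have a2 := mul_le_mul_of_nonneg_left h4 (by positivity : 0 ≤ 1 / L ^ 3)
    linarith
  refine le_trans (le_of_eq_of_le (b := s / 5000) rfl ?_) h6
  have h7 : (1 / L) * (s ^ 2 / 9) - (1 / L ^ 3) * (2640 * s ^ 4) = s * (1 / 1800 - 2640 / 8000000) := by
    rw [hL]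
    field_simp
    ring
  rw [h7]
  have : (1 : ℝ) / 5000 ≤ 1 / 1800 - 2640 / 8000000 := by norm_num
  nlinarith

end Pool.Agent.Helper66.AF
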