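import Mathlib

/-!
# A polynomial lower bound for the zeta function to the right of the line 1

`|(s-1) zeta(s)| >= c (3+2|t|)^(-8)` for `s = sigma + i t`, `1 < sigma <= 2`, all real `t` (3-4-1 and a Lipschitz
bound), and the matching upper bound `|(s-1) zeta(s)| <= 10 (3+2|t|)^2`.
-/

namespace Pool.Agent.Helper66.AF

open Complex Set MeasureTheory Filter Topology

/-- the remainder integral -/
noncomputable def J1 (s : ℂ) : ℂ := ∫ t in Ioi (1:ℝ), ((Int.fract t : ℝ) : ℂ) * (t:ℂ) ^ (-(s + 1))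

lemma norm_fr (s : ℂ) {t : ℝ} (ht : 1 < t) : ‖((Int.fract t : ℝ) : ℂ) * (t:ℂ) ^ (-(s + 1))‖ ≤ t ^ (-(s.re + 1)) := by
  rw [norm_mul, Complex.norm_cpow_eq_rpow_re_of_pos (by linarith), Complex.norm_real,
    Real.norm_of_nonneg (Int.fract_nonneg t)]
  have h1 := (Int.fract_lt_one t).le
  have h2 : 0 ≤ t ^ ((-(s + 1)).re) := Real.rpow_nonneg (by linarith) _
  have e : (-(s + 1)).re = -(s.re + 1) := by simp
  rw [e] at h2 ⊢
  calc Int.fract t * t ^ (-(s.re + 1)) ≤ 1 * t ^ (-(s.re + 1)) := by gcongr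
    _ = _ := one_mul _

lemma aesm_fr (s : ℂ) : AEStronglyMeasurable (fun t : ℝ => ((Int.fract t : ℝ) : ℂ) * (t:ℂ) ^ (-(s + 1))) (volume.restrict (Ioi 1)) := by
  apply AEStronglyMeasurable.mul
  · apply Measurable.aestronglyMeasurable
    exact Complex.measurable_ofReal.comp measurable_fract
  · apply ContinuousOn.aestronglyMeasurable _ measurableSet_Ioi
    intro x hx
    have hx1 : (1:ℝ) < x := hx
    exact (Complex.continuousAt_ofReal_cpow_const _ _ (Or.inr (by linarith))).continuousWithinAt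

lemma integrableOn_fr {s : ℂ} (hs : 0 < s.re) :
    IntegrableOn (fun t : ℝ => ((Int.fract t : ℝ) : ℂ) * (t:ℂ) ^ (-(s + 1))) (Ioi 1) := by
  refine (integrableOn_Ioi_rpow_of_lt (a := -(s.re + 1)) (by linarith) one_pos).mono' (aesm_fr s) ?_
  filter_upwards [ae_restrict_mem measurableSet_Ioi] with t ht
  exact norm_fr s ht

lemma norm_J1_le {s : ℂ} (hs : 0 < s.re) : ‖J1 s‖ ≤ 1 / s.re := by
  unfold J1
  refine (norm_integral_le_of_norm_le (integrableOn_Ioi_rpow_of_lt (a := -(s.re + 1)) (by linarith) one_pos) (by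
    filter_upwards [ae_restrict_mem measurableSet_Ioi] with t ht
    exact norm_fr s ht)).trans ?_
  rw [integral_Ioi_rpow_of_lt (by linarith) one_pos]
  rw [Real.one_rpow, show -(s.re + 1) + 1 = -s.re by ring, neg_div_neg_eq]

/-- Lipschitz bound for the remainder along horizontal segments -/
lemma norm_J1_sub {a b t : ℝ} (ha : 1 ≤ a) (hab : a ≤ b) : ‖J1 (a + t * I) - J1 (b + t * I)‖ ≤ b - a := by
  have ra : ((a:ℂ) + t * I).re = a := by simp
  have rb : ((b:ℂ) + t * I).re = b := by simp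
  have ia := integrableOn_fr (s := (a:ℂ) + t * I) (by rw [ra]; linarith)
  have ib := integrableOn_fr (s := (b:ℂ) + t * I) (by rw [rb]; linarith)
  unfold J1
  rw [← integral_sub ia ib]
  have ga : IntegrableOn (fun x : ℝ => x ^ (-(a + 1)) - x ^ (-(b + 1))) (Ioi 1) :=
    (integrableOn_Ioi_rpow_of_lt (by linarith) one_pos).sub (integrableOn_Ioi_rpow_of_lt (by linarith) one_pos)
  refine (norm_integral_le_of_norm_le ga ?_).trans ?_
  · filter_upwards [ae_restrict_mem measurableSet_Ioi] with x hx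
    have hx1 : (1:ℝ) < x := hx
    have hx0 : (0:ℝ) < x := by linarith
    have hxc : (x:ℂ) ≠ 0 := by exact_mod_cast hx0.ne'
    have e : ((Int.fract x : ℝ) : ℂ) * (x:ℂ) ^ (-((a:ℂ) + t * I + 1)) - ((Int.fract x : ℝ) : ℂ) * (x:ℂ) ^ (-((b:ℂ) + t * I + 1)) =
        ((Int.fract x : ℝ) : ℂ) * ((x:ℂ) ^ (-(t * I)) * ((x ^ (-(a + 1)) - x ^ (-(b + 1)) : ℝ) : ℂ)) := by
      rw [show -((a:ℂ) + t * I + 1) = -(t * I) + ((-(a + 1) : ℝ) : ℂ) by push_cast; ring,
        show -((b:ℂ) + t * I + 1) = -(t * I) + ((-(b + 1) : ℝ) : ℂ) by push_cast; ring,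
        Complex.cpow_add _ _ hxc, Complex.cpow_add _ _ hxc, ← Complex.ofReal_cpow hx0.le, ← Complex.ofReal_cpow hx0.le]
      push_cast
      ring
    rw [e, norm_mul, norm_mul, Complex.norm_cpow_eq_rpow_re_of_pos hx0, Complex.norm_real, Complex.norm_real,
      Real.norm_of_nonneg (Int.fract_nonneg x)]
    have e2 : (-((t:ℂ) * I)).re = 0 := by simp
    rw [e2, Real.rpow_zero, one_mul]
    have h3 : x ^ (-(b + 1)) ≤ x ^ (-(a + 1)) := Real.rpow_le_rpow_of_exponent_le hx1.le (by linarith)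
    rw [Real.norm_of_nonneg (by linarith)]
    have h4 := (Int.fract_lt_one x).le
    have h5 := Int.fract_nonneg x
    nlinarith
  · rw [integral_sub (integrableOn_Ioi_rpow_of_lt (by linarith) one_pos) (integrableOn_Ioi_rpow_of_lt (by linarith) one_pos),
      integral_Ioi_rpow_of_lt (by linarith) one_pos, integral_Ioi_rpow_of_lt (by linarith) one_pos]
    rw [Real.one_rpow, Real.one_rpow, show -(a + 1) + 1 = -a by ring, show -(b + 1) + 1 = -b by ring, neg_div_neg_eq,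
      neg_div_neg_eq]
    have ha0 : 0 < a := by linarith
    have hb0 : 0 < b := by linarith
    have : 1 / a - 1 / b = (b - a) / (a * b) := by field_simp
    rw [this, div_le_iff₀ (by positivity)]
    have : 1 ≤ a * b := by nlinarith
    nlinarith

lemma zeta_eq_J {s : ℂ} (hs : 1 < s.re) : riemannZeta s = s / (s - 1) - s * J1 s := by
  have h1 := LSeries_eq_mul_integral (1 : ℕ → ℂ) (r := 1) zero_le_one (s := s) hs
    (LSeriesHasSum_one hs).LSeriesSummable (by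
      apply Asymptotics.IsBigO.of_bound 1
      filter_upwards with n
      simp)
  rw [LSeries_one_eq_riemannZeta hs] at h1
  rw [h1]
  have hs0 : s ≠ 0 := by rintro rfl; simp at hs; linarith
  have hs1 : s - 1 ≠ 0 := by
    intro h
    have := congrArg Complex.re h
    simp at this
    linarith
  have e1 : ∫ t in Ioi (1:ℝ), (∑ k ∈ Finset.Icc 1 ⌊t⌋₊, (1 : ℕ → ℂ) k) * (t:ℂ) ^ (-(s + 1)) =
      ∫ t in Ioi (1:ℝ), ((t:ℂ) ^ (-s) - ((Int.fract t : ℝ) : ℂ) * (t:ℂ) ^ (-(s + 1))) := by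
    refine setIntegral_congr_fun measurableSet_Ioi (fun t ht => ?_)
    have ht1 : (1:ℝ) < t := ht
    have ht0 : (t:ℂ) ≠ 0 := by
      have : t ≠ 0 := by linarith
      exact_mod_cast this
    simp only [Pi.one_apply, Finset.sum_const, Nat.card_Icc, nsmul_eq_mul, mul_one, Nat.add_sub_cancel]
    have e2 : ((⌊t⌋₊ : ℕ) : ℂ) = (t:ℂ) - ((Int.fract t : ℝ) : ℂ) := by
      have h3 : ((⌊t⌋₊ : ℕ) : ℝ) = t - Int.fract t := by
        rw [Int.self_sub_fract, natCast_floor_eq_intCast_floor (by linarith)]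
      have h4 : ((⌊t⌋₊ : ℕ) : ℂ) = (((⌊t⌋₊ : ℕ) : ℝ) : ℂ) := by push_cast; rfl
      rw [h4, h3]; push_cast; ring
    rw [e2, sub_mul]
    congr 1
    rw [show -s = 1 + -(s + 1) by ring, Complex.cpow_add _ _ ht0, Complex.cpow_one]
  rw [e1, integral_sub (integrableOn_Ioi_cpow_of_lt (by simp; linarith) one_pos) (integrableOn_fr (by linarith)),
    integral_Ioi_cpow_of_lt (by simp; linarith) one_pos]
  unfold J1
  simp only [Complex.ofReal_one, Complex.one_cpow]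
  rw [show -s + 1 = -(s - 1) by ring, neg_div_neg_eq]
  ring

/-- upper bound, all heights -/
theorem zeta_upper {σ t : ℝ} (h1 : 1 < σ) (h2 : σ ≤ 2) :
    ‖((σ:ℂ) + t * I - 1) * riemannZeta (σ + t * I)‖ ≤ 2 * (3 + 2 * |t|) ^ 2 := by
  have re : ((σ:ℂ) + t * I).re = σ := by simp
  have hs1 : (σ:ℂ) + t * I - 1 ≠ 0 := by
    intro h
    have := congrArg Complex.re h
    simp at this
    linarith
  rw [zeta_eq_J (by rw [re]; exact h1)]
  have e : ((σ:ℂ) + t * I - 1) * (((σ:ℂ) + t * I) / ((σ:ℂ) + t * I - 1) - ((σ:ℂ) + t * I) * J1 (σ + t * I)) =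
      ((σ:ℂ) + t * I) - ((σ:ℂ) + t * I - 1) * ((σ:ℂ) + t * I) * J1 (σ + t * I) := by
    field_simp
  rw [e]
  have n1 : ‖(σ:ℂ) + t * I‖ ≤ 2 + |t| := by
    refine (norm_add_le _ _).trans ?_
    rw [norm_mul, Complex.norm_I, Complex.norm_real, Complex.norm_real, mul_one, Real.norm_eq_abs, Real.norm_eq_abs,
      abs_of_pos (by linarith)]
    linarith
  have n2 : ‖(σ:ℂ) + t * I - 1‖ ≤ 1 + |t| := by
    rw [show (σ:ℂ) + t * I - 1 = ((σ - 1 : ℝ) : ℂ) + t * I by push_cast; ring]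
    refine (norm_add_le _ _).trans ?_
    rw [norm_mul, Complex.norm_I, Complex.norm_real, Complex.norm_real, mul_one, Real.norm_eq_abs, Real.norm_eq_abs,
      abs_of_pos (by linarith)]
    linarith
  have n3 : ‖J1 (σ + t * I)‖ ≤ 1 := by
    refine (norm_J1_le (by rw [re]; linarith)).trans ?_
    rw [re, div_le_one (by linarith)]
    linarith
  refine (norm_sub_le _ _).trans ?_
  rw [norm_mul, norm_mul]
  have ht := abs_nonneg t
  calc ‖(σ:ℂ) + t * I‖ + ‖(σ:ℂ) + t * I - 1‖ * ‖(σ:ℂ) + t * I‖ * ‖J1 (σ + t * I)‖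
      ≤ (2 + |t|) + (1 + |t|) * (2 + |t|) * 1 := by gcongr
    _ ≤ _ := by nlinarith

/-- 3-4-1 for the zeta function -/
lemma three_four_one {x : ℝ} (hx : 0 < x) (y : ℝ) :
    1 ≤ ‖riemannZeta (1 + x)‖ ^ 3 * ‖riemannZeta (1 + x + I * y)‖ ^ 4 * ‖riemannZeta (1 + x + 2 * I * y)‖ := by
  have h := DirichletCharacter.norm_LFunction_product_ge_one (N := 1) (1 : DirichletCharacter ℂ 1) hx y
  rw [DirichletCharacter.LFunctionTrivChar, one_pow, DirichletCharacter.LFunction_modOne_eq, norm_mul, norm_mul, norm_pow, norm_pow] at h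
  exact h

/-- lower bound for heights at least 1 -/
lemma zeta_low_high : ∃ c : ℝ, 0 < c ∧ ∀ σ t : ℝ, 1 < σ → σ ≤ 2 → 1 ≤ |t| →
    c * (3 + 2 * |t|) ^ (-8 : ℝ) ≤ ‖riemannZeta (σ + t * I)‖ := by
  -- preliminary pointwise bound
  have key : ∀ x t : ℝ, 0 < x → x ≤ 1 → 1 ≤ |t| →
      x ^ 3 ≤ 54 ^ 3 * (20 * (3 + 2 * |t|) ^ 2) * ‖riemannZeta (((1 + x : ℝ) : ℂ) + t * I)‖ ^ 4 := by
    intro x t hx hx1 ht
    have h := three_four_one hx t
    have e1 : (1:ℂ) + (x:ℂ) + I * t = ((1 + x : ℝ) : ℂ) + t * I := by push_cast; ring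
    have e2 : (1:ℂ) + (x:ℂ) + 2 * I * t = ((1 + x : ℝ) : ℂ) + ((2 * t : ℝ) : ℂ) * I := by push_cast; ring
    have e0 : (1:ℂ) + (x:ℂ) = ((1 + x : ℝ) : ℂ) + ((0:ℝ) : ℂ) * I := by push_cast; ring
    rw [e1, e2, e0] at h
    have u0 := zeta_upper (σ := 1 + x) (t := 0) (by linarith) (by linarith)
    have u2 := zeta_upper (σ := 1 + x) (t := 2 * t) (by linarith) (by linarith)
    rw [norm_mul] at u0 u2
    have n0 : ‖((1 + x : ℝ) : ℂ) + ((0:ℝ) : ℂ) * I - 1‖ = x := by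
      rw [show ((1 + x : ℝ) : ℂ) + ((0:ℝ) : ℂ) * I - 1 = ((x : ℝ) : ℂ) by push_cast; ring, Complex.norm_real,
        Real.norm_of_nonneg hx.le]
    have n2 : 1 ≤ ‖((1 + x : ℝ) : ℂ) + ((2 * t : ℝ) : ℂ) * I - 1‖ := by
      have := Complex.abs_im_le_norm (((1 + x : ℝ) : ℂ) + ((2 * t : ℝ) : ℂ) * I - 1)
      have e3 : (((1 + x : ℝ) : ℂ) + ((2 * t : ℝ) : ℂ) * I - 1).im = 2 * t := by simp
      rw [e3, abs_mul, abs_of_pos (by norm_num : (0:ℝ) < 2)] at this
      linarith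
    rw [n0] at u0
    rw [abs_zero, mul_zero, add_zero] at u0
    set Z0 := ‖riemannZeta (((1 + x : ℝ) : ℂ) + ((0:ℝ) : ℂ) * I)‖ with hZ0
    set Z1 := ‖riemannZeta (((1 + x : ℝ) : ℂ) + (t : ℂ) * I)‖ with hZ1
    set Z2 := ‖riemannZeta (((1 + x : ℝ) : ℂ) + ((2 * t : ℝ) : ℂ) * I)‖ with hZ2
    have p0 : 0 ≤ Z0 := norm_nonneg _
    have p1 : 0 ≤ Z1 := norm_nonneg _
    have p2 : 0 ≤ Z2 := norm_nonneg _
    have q2 : Z2 ≤ 20 * (3 + 2 * |t|) ^ 2 := by
      have a1 : Z2 ≤ 2 * (3 + 2 * |2 * t|) ^ 2 := by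
        calc Z2 = 1 * Z2 := (one_mul _).symm
          _ ≤ _ := by gcongr
          _ ≤ _ := u2
      rw [abs_mul, abs_of_pos (by norm_num : (0:ℝ) < 2)] at a1
      have := abs_nonneg t
      nlinarith
    have q0 : x * Z0 ≤ 54 := by linarith
    have q3 : x ^ 3 * Z0 ^ 3 ≤ 54 ^ 3 := by
      rw [← mul_pow]
      gcongr
    calc x ^ 3 = x ^ 3 * 1 := (mul_one _).symm
      _ ≤ x ^ 3 * (Z0 ^ 3 * Z1 ^ 4 * Z2) := by gcongr
      _ = (x ^ 3 * Z0 ^ 3) * Z2 * Z1 ^ 4 := by ring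
      _ ≤ 54 ^ 3 * (20 * (3 + 2 * |t|) ^ 2) * Z1 ^ 4 := by gcongr
  -- Lipschitz
  have lip : ∀ a b t : ℝ, 1 < a → a ≤ b → b ≤ 2 → 1 ≤ |t| →
      ‖riemannZeta ((b:ℂ) + t * I)‖ - 4 * (3 + 2 * |t|) * (b - a) ≤ ‖riemannZeta ((a:ℂ) + t * I)‖ := by
    intro a b t ha hab hb ht
    have ra : ((a:ℂ) + t * I).re = a := by simp
    have rb : ((b:ℂ) + t * I).re = b := by simp
    have ia : ((a:ℂ) + t * I - 1).im = t := by simp
    have ib : ((b:ℂ) + t * I - 1).im = t := by simp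
    have na : 1 ≤ ‖(a:ℂ) + t * I - 1‖ := by
      have := Complex.abs_im_le_norm ((a:ℂ) + t * I - 1)
      rw [ia] at this; linarith
    have nb : 1 ≤ ‖(b:ℂ) + t * I - 1‖ := by
      have := Complex.abs_im_le_norm ((b:ℂ) + t * I - 1)
      rw [ib] at this; linarith
    have na0 : (a:ℂ) + t * I - 1 ≠ 0 := by
      intro h; rw [h, norm_zero] at na; linarith
    have nb0 : (b:ℂ) + t * I - 1 ≠ 0 := by
      intro h; rw [h, norm_zero] at nb; linarith
    have n1 : ‖(a:ℂ) + t * I‖ ≤ 2 + |t| := by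
      refine (norm_add_le _ _).trans ?_
      rw [norm_mul, Complex.norm_I, Complex.norm_real, Complex.norm_real, mul_one, Real.norm_eq_abs, Real.norm_eq_abs,
        abs_of_pos (by linarith)]
      linarith
    have nJ : ‖J1 (b + t * I)‖ ≤ 1 := by
      refine (norm_J1_le (by rw [rb]; linarith)).trans ?_
      rw [rb, div_le_one (by linarith)]
      linarith
    have e : riemannZeta ((b:ℂ) + t * I) - riemannZeta ((a:ℂ) + t * I) =
        -(((b - a : ℝ) : ℂ) / (((a:ℂ) + t * I - 1) * ((b:ℂ) + t * I - 1))) +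
        ((a:ℂ) + t * I) * (J1 (a + t * I) - J1 (b + t * I)) - ((b - a : ℝ) : ℂ) * J1 (b + t * I) := by
      rw [zeta_eq_J (s := (b:ℂ) + t * I) (by rw [rb]; linarith), zeta_eq_J (s := (a:ℂ) + t * I) (by rw [ra]; exact ha)]
      push_cast
      field_simp
      ring
    have hd : ‖riemannZeta ((b:ℂ) + t * I) - riemannZeta ((a:ℂ) + t * I)‖ ≤ 4 * (3 + 2 * |t|) * (b - a) := by
      rw [e]
      have hba : ‖((b - a : ℝ) : ℂ)‖ = b - a := by
        rw [Complex.norm_real, Real.norm_of_nonneg (by linarith)]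
      have m1 : ‖((b - a : ℝ) : ℂ) / (((a:ℂ) + t * I - 1) * ((b:ℂ) + t * I - 1))‖ ≤ b - a := by
        rw [norm_div, norm_mul, hba]
        apply div_le_self (by linarith)
        nlinarith
      have m2 : ‖((a:ℂ) + t * I) * (J1 (a + t * I) - J1 (b + t * I))‖ ≤ (2 + |t|) * (b - a) := by
        rw [norm_mul]
        have := norm_J1_sub (t := t) ha.le hab
        have := abs_nonneg t
        gcongr
      have m3 : ‖((b - a : ℝ) : ℂ) * J1 (b + t * I)‖ ≤ b - a := by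
        rw [norm_mul, hba]
        calc (b - a) * ‖J1 (b + t * I)‖ ≤ (b - a) * 1 := by
              have : 0 ≤ b - a := by linarith
              gcongr
          _ = _ := mul_one _
      refine (norm_sub_le _ _).trans ?_
      refine (add_le_add_left (norm_add_le _ _) _).trans ?_
      rw [norm_neg]
      have := abs_nonneg t
      nlinarith
    have := norm_sub_norm_le (riemannZeta ((b:ℂ) + t * I)) (riemannZeta ((a:ℂ) + t * I))
    linarith
  -- combine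
  set K : ℝ := 54 ^ 3 * 20 with hK
  have hK0 : 0 < K := by positivity
  -- at x : Z^4 ≥ x^3/(K A^2); choose delta = kap A^-10 with kap^(1/4) * 8 * K^(1/4) ≤ 1
  set kap : ℝ := 1 / (8 ^ 4 * K) with hkap
  have hkap0 : 0 < kap := by positivity
  have hkap1 : kap ≤ 1 := by
    rw [hkap, div_le_one (by positivity), hK]
    norm_num
  set c : ℝ := 4 * kap with hc
  refine ⟨c, by positivity, ?_⟩
  intro σ t h1 h2 ht
  set A : ℝ := 3 + 2 * |t| with hA
  have hA1 : 1 ≤ A := by rw [hA]; linarith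
  have hA0 : 0 < A := by linarith
  have e8 : A ^ (-8 : ℝ) = (A ^ 8)⁻¹ := by
    rw [Real.rpow_neg hA0.le]
    norm_cast
  rw [e8]
  set δ : ℝ := kap * (A ^ 10)⁻¹ with hδ
  have hδ0 : 0 < δ := by positivity
  have hδ1 : δ ≤ 1 := by
    rw [hδ]
    have : (A ^ 10)⁻¹ ≤ 1 := inv_le_one_of_one_le₀ (one_le_pow₀ hA1)
    calc kap * (A ^ 10)⁻¹ ≤ 1 * 1 := by gcongr
      _ = 1 := one_mul _
  -- value for x ≥ δ
  have big : ∀ x : ℝ, δ ≤ x → x ≤ 1 → 8 * kap * (A ^ 8)⁻¹ ≤ ‖riemannZeta (((1 + x : ℝ) : ℂ) + t * I)‖ := by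
    intro x hx hx1
    have h := key x t (lt_of_lt_of_le hδ0 hx) hx1 ht
    have hx3 : δ ^ 3 ≤ x ^ 3 := by gcongr
    rw [← hA] at h
    set Z := ‖riemannZeta (((1 + x : ℝ) : ℂ) + t * I)‖ with hZ
    have hZ0 : 0 ≤ Z := norm_nonneg _
    by_contra hcon
    push Not at hcon
    have hZ4 : Z ^ 4 < (8 * kap * (A ^ 8)⁻¹) ^ 4 := by gcongr
    have h3 : δ ^ 3 < K * A ^ 2 * (8 * kap * (A ^ 8)⁻¹) ^ 4 := by
      calc δ ^ 3 ≤ x ^ 3 := hx3
        _ ≤ 54 ^ 3 * (20 * A ^ 2) * Z ^ 4 := h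
        _ = K * A ^ 2 * Z ^ 4 := by rw [hK]; ring
        _ < _ := by gcongr
    have h4 : K * A ^ 2 * (8 * kap * (A ^ 8)⁻¹) ^ 4 = δ ^ 3 := by
      have : 8 ^ 4 * K * kap = 1 := by rw [hkap]; field_simp
      calc K * A ^ 2 * (8 * kap * (A ^ 8)⁻¹) ^ 4 = (8 ^ 4 * K * kap) * kap ^ 3 * (A ^ 2 * ((A ^ 8)⁻¹) ^ 4) := by ring
        _ = kap ^ 3 * (A ^ 2 * ((A ^ 8)⁻¹) ^ 4) := by rw [this]; ring
        _ = δ ^ 3 := by rw [hδ]; field_simp
    linarith
  by_cases hx : δ ≤ σ - 1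
  · have := big (σ - 1) hx (by linarith)
    rw [show 1 + (σ - 1) = σ by ring] at this
    have hpos : 0 ≤ kap * (A ^ 8)⁻¹ := by positivity
    rw [hc]
    nlinarith
  · push Not at hx
    have hb := big δ le_rfl hδ1
    have hl := lip σ (1 + δ) t h1 (by linarith) (by linarith) ht
    rw [← hA] at hl
    have h5 : 4 * A * (1 + δ - σ) ≤ 4 * kap * (A ^ 8)⁻¹ := by
      have h6 : 1 + δ - σ ≤ δ := by linarith
      calc 4 * A * (1 + δ - σ) ≤ 4 * A * δ := by gcongr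
        _ = 4 * kap * (A * (A ^ 10)⁻¹) := by rw [hδ]; ring
        _ ≤ 4 * kap * (A ^ 8)⁻¹ := by
            have : A * (A ^ 10)⁻¹ ≤ (A ^ 8)⁻¹ := by
              rw [show A * (A ^ 10)⁻¹ = (A ^ 9)⁻¹ by field_simp]
              apply inv_anti₀ (by positivity)
              exact pow_le_pow_right₀ hA1 (by norm_num)
            gcongr
    rw [hc]
    linarith

/-- lower bound near the pole, by compactness -/
lemma zeta_low_near : ∃ c : ℝ, 0 < c ∧ ∀ σ t : ℝ, 1 < σ → σ ≤ 2 → |t| ≤ 1 →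
    c ≤ ‖((σ:ℂ) + t * I - 1) * riemannZeta (σ + t * I)‖ := by
  set g : ℂ → ℂ := Function.update (fun s : ℂ => (s - 1) * riemannZeta s) 1 1 with hg
  have hgc : Continuous g := by
    rw [hg, continuous_iff_continuousAt]
    intro s
    by_cases hs : s = 1
    · subst hs
      rw [continuousAt_update_same]
      exact riemannZeta_residue_one
    · have h1 : ContinuousAt (fun s : ℂ => (s - 1) * riemannZeta s) s :=
        (continuousAt_id.sub continuousAt_const).mul (differentiableAt_riemannZeta hs).continuousAt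
      exact (continuousAt_update_of_ne hs).2 h1
  have hgn : ∀ s : ℂ, 1 ≤ s.re → g s ≠ 0 := by
    intro s hs
    by_cases h : s = 1
    · rw [h, hg, Function.update_self]; exact one_ne_zero
    · rw [hg, Function.update_of_ne h]
      exact mul_ne_zero (sub_ne_zero.2 h) (riemannZeta_ne_zero_of_one_le_re hs)
  set F : ℝ × ℝ → ℝ := fun p => ‖g ((p.1 : ℂ) + p.2 * I)‖ with hF
  have hFc : Continuous F := by
    rw [hF]
    fun_prop
  have hcomp : IsCompact (Icc (1:ℝ) 2 ×ˢ Icc (-1:ℝ) 1) := isCompact_Icc.prod isCompact_Icc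
  have hne : (Icc (1:ℝ) 2 ×ˢ Icc (-1:ℝ) 1).Nonempty := ⟨(1, 0), by constructor <;> simp⟩
  obtain ⟨p, hp, hmin⟩ := hcomp.exists_isMinOn hne hFc.continuousOn
  refine ⟨F p, ?_, ?_⟩
  · rw [hF]
    apply norm_pos_iff.2
    apply hgn
    simp
    exact hp.1.1
  · intro σ t h1 h2 ht
    have := hmin (show (σ, t) ∈ Icc (1:ℝ) 2 ×ˢ Icc (-1:ℝ) 1 from ⟨⟨h1.le, h2⟩, abs_le.1 ht⟩)
    have hne1 : (σ:ℂ) + t * I ≠ 1 := by
      intro h
      have := congrArg Complex.re h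
      simp at this
      linarith
    have e : F (σ, t) = ‖((σ:ℂ) + t * I - 1) * riemannZeta (σ + t * I)‖ := by
      rw [hF]
      simp only
      rw [hg, Function.update_of_ne hne1]
    rw [← e]
    exact this

/-- the lower bound for all heights -/
theorem zeta_lower : ∃ c : ℝ, 0 < c ∧ ∀ σ t : ℝ, 1 < σ → σ ≤ 2 →
    c * (3 + 2 * |t|) ^ (-8 : ℝ) ≤ ‖((σ:ℂ) + t * I - 1) * riemannZeta (σ + t * I)‖ := by
  obtain ⟨c1, hc1, h1⟩ := zeta_low_high
  obtain ⟨c2, hc2, h2⟩ := zeta_low_near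
  refine ⟨min c1 c2, lt_min hc1 hc2, ?_⟩
  intro σ t hσ hσ2
  have hA1 : (1:ℝ) ≤ 3 + 2 * |t| := by linarith [abs_nonneg t]
  by_cases ht : 1 ≤ |t|
  · have h := h1 σ t hσ hσ2 ht
    rw [norm_mul]
    have na : 1 ≤ ‖(σ:ℂ) + t * I - 1‖ := by
      have := Complex.abs_im_le_norm ((σ:ℂ) + t * I - 1)
      have ia : ((σ:ℂ) + t * I - 1).im = t := by simp
      rw [ia] at this; linarith
    have hp : 0 ≤ (3 + 2 * |t|) ^ (-8 : ℝ) := by positivity
    calc min c1 c2 * (3 + 2 * |t|) ^ (-8 : ℝ) ≤ c1 * (3 + 2 * |t|) ^ (-8 : ℝ) := by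
          gcongr; exact min_le_left _ _
      _ ≤ ‖riemannZeta (σ + t * I)‖ := h
      _ = 1 * ‖riemannZeta (σ + t * I)‖ := (one_mul _).symm
      _ ≤ _ := by gcongr
  · push Not at ht
    have h := h2 σ t hσ hσ2 ht.le
    refine le_trans ?_ h
    have hp : (3 + 2 * |t|) ^ (-8 : ℝ) ≤ 1 := Real.rpow_le_one_of_one_le_of_nonpos hA1 (by norm_num)
    have hp0 : 0 ≤ (3 + 2 * |t|) ^ (-8 : ℝ) := by positivity
    calc min c1 c2 * (3 + 2 * |t|) ^ (-8 : ℝ) ≤ c2 * 1 := by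
          gcongr; exact min_le_right _ _
      _ = c2 := mul_one _

end Pool.Agent.Helper66.AF
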