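import Pool.Agent.Helper66.AF.ZLow
import Pool.Agent.Helper5.RM.Base

/-!
# Prime sums twisted by `cos (t log p)` and the zeta function near the line 1

`sum_{p <= y} cos (t log p) / p = log |zeta (1 + 1/log y + i t)| + O(1)`, uniformly in `t`.
-/

set_option autoImplicit false

namespace Pool.Agent.Helper66.AF

open Finset Pool.Agent.Helper5.RM
open scoped ArithmeticFunction.vonMangoldt

lemma log_fact (N : ℕ) : ∑ n ∈ Finset.range (N + 1), Real.log n = ∑ d ∈ Finset.range (N + 1), Λ d * ((N / d : ℕ) : ℝ) := by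
  classical
  have e1 : ∀ n ∈ Finset.range (N + 1), Real.log n = ∑ d ∈ Finset.range (N + 1), if (n ≠ 0 ∧ d ∣ n) then Λ d else 0 := by
    intro n hn
    rw [Finset.mem_range] at hn
    rw [← ArithmeticFunction.vonMangoldt_sum, ← Finset.sum_filter]
    apply Finset.sum_congr
    · ext d
      rw [Nat.mem_divisors, Finset.mem_filter, Finset.mem_range]
      constructor
      · rintro ⟨h1, h2⟩
        have := Nat.le_of_dvd (Nat.pos_of_ne_zero h2) h1
        exact ⟨by omega, h2, h1⟩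
      · rintro ⟨_, h2, h1⟩
        exact ⟨h1, h2⟩
    · intro d _; rfl
  rw [Finset.sum_congr rfl e1, Finset.sum_comm]
  refine Finset.sum_congr rfl fun d _ => ?_
  rw [← Finset.sum_filter, Finset.sum_const, nsmul_eq_mul, ← Nat.card_multiples' N d]
  ring

lemma log_fact_lower (N : ℕ) : N * Real.log N - N ≤ ∑ n ∈ Finset.range (N + 1), Real.log n := by
  induction N with
  | zero => simp
  | succ N ih =>
    rw [Finset.sum_range_succ]
    rcases Nat.eq_zero_or_pos N with rfl | hN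
    · simp
    have hN0 : (0:ℝ) < N := by exact_mod_cast hN
    have h1 : Real.log ((N + 1 : ℕ) : ℝ) - Real.log N ≤ 1 / N := by
      rw [← Real.log_div (by positivity) hN0.ne']
      have h2 := Real.log_le_sub_one_of_pos (show (0:ℝ) < ((N + 1 : ℕ) : ℝ) / N by positivity)
      have h3 : ((N + 1 : ℕ) : ℝ) / N - 1 = 1 / N := by push_cast; field_simp; ring
      linarith
    have h4 : N * (Real.log ((N + 1 : ℕ) : ℝ) - Real.log N) ≤ N * (1 / N) := by gcongr
    rw [mul_one_div_cancel hN0.ne'] at h4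
    push_cast at h4 ih ⊢
    linarith

lemma log_fact_upper (N : ℕ) : ∑ n ∈ Finset.range (N + 1), Real.log n ≤ N * Real.log N := by
  rw [Finset.sum_range_succ']
  simp only [Nat.cast_zero, Real.log_zero, add_zero]
  calc ∑ k ∈ Finset.range N, Real.log ((k + 1 : ℕ) : ℝ) ≤ ∑ k ∈ Finset.range N, Real.log N := by
        refine Finset.sum_le_sum fun k hk => ?_
        rw [Finset.mem_range] at hk
        apply Real.log_le_log (by positivity)
        exact_mod_cast hk
    _ = _ := by rw [Finset.sum_const, Finset.card_range, nsmul_eq_mul]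

lemma psi_range (N : ℕ) : ∑ d ∈ Finset.range (N + 1), Λ d ≤ (Real.log 4 + 4) * N := by
  have h := Chebyshev.psi_le_const_mul_self (x := (N:ℝ)) (by positivity)
  rw [Chebyshev.psi_eq_sum_Icc, Nat.floor_natCast] at h
  refine le_trans (le_of_eq ?_) h
  apply Finset.sum_congr _ (fun _ _ => rfl)
  ext d
  simp

lemma vM_lower {N : ℕ} (hN : 1 ≤ N) : Real.log N - 1 ≤ ∑ d ∈ Finset.range (N + 1), Λ d / d := by
  have hN0 : (0:ℝ) < N := by exact_mod_cast hN
  have h1 := log_fact_lower N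
  rw [log_fact] at h1
  have h3 : ∑ d ∈ Finset.range (N + 1), Λ d * ((N / d : ℕ) : ℝ) ≤ ∑ d ∈ Finset.range (N + 1), (N:ℝ) * (Λ d / d) := by
    refine Finset.sum_le_sum fun d _ => ?_
    have h9 := @ArithmeticFunction.vonMangoldt_nonneg d
    have h10 : ((N / d : ℕ) : ℝ) ≤ (N:ℝ) / d := Nat.cast_div_le
    calc Λ d * ((N / d : ℕ) : ℝ) ≤ Λ d * ((N:ℝ) / d) := by gcongr
      _ = _ := by ring
  rw [← Finset.mul_sum] at h3
  have h4 : N * (Real.log N - 1) ≤ N * ∑ d ∈ Finset.range (N + 1), Λ d / d := by linarith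
  exact le_of_mul_le_mul_left h4 hN0

lemma vM_upper {N : ℕ} (hN : 1 ≤ N) : ∑ d ∈ Finset.range (N + 1), Λ d / d ≤ Real.log N + (Real.log 4 + 4) := by
  have hN0 : (0:ℝ) < N := by exact_mod_cast hN
  have h1 := log_fact_upper N
  rw [log_fact] at h1
  have h3 : ∑ d ∈ Finset.range (N + 1), (N:ℝ) * (Λ d / d) ≤ ∑ d ∈ Finset.range (N + 1), (Λ d * ((N / d : ℕ) : ℝ) + Λ d) := by
    refine Finset.sum_le_sum fun d _ => ?_
    have h9 := @ArithmeticFunction.vonMangoldt_nonneg d
    rcases Nat.eq_zero_or_pos d with rfl | hd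
    · simp
    have hd0 : (0:ℝ) < d := by exact_mod_cast hd
    have h10 : (N:ℝ) / d ≤ ((N / d : ℕ) : ℝ) + 1 := by
      rw [div_le_iff₀ hd0]
      have h6 : N < d * (N / d) + d := by
        have := Nat.div_add_mod N d
        have := Nat.mod_lt N hd
        omega
      have h8 : (N:ℝ) < d * ((N / d : ℕ) : ℝ) + d := by exact_mod_cast h6
      linarith
    calc (N:ℝ) * (Λ d / d) = Λ d * ((N:ℝ) / d) := by ring
      _ ≤ Λ d * (((N / d : ℕ) : ℝ) + 1) := by gcongr
      _ = _ := by ring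
  rw [← Finset.mul_sum, Finset.sum_add_distrib] at h3
  have h4 := psi_range N
  have h5 : N * ∑ d ∈ Finset.range (N + 1), Λ d / d ≤ N * (Real.log N + (Real.log 4 + 4)) := by linarith
  exact le_of_mul_le_mul_left h5 hN0

/-- Mertens' first theorem, upper bound -/
lemma logp_le {y : ℕ} (hy : 1 ≤ y) : ∑ p ∈ PP y, Real.log p / p ≤ Real.log y + (Real.log 4 + 4) := by
  refine le_trans ?_ (vM_upper hy)
  have h1 : ∑ p ∈ PP y, Real.log p / p = ∑ p ∈ PP y, Λ p / p := by
    refine Finset.sum_congr rfl fun p hp => ?_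
    rw [ArithmeticFunction.vonMangoldt_apply_prime (mem_PP.1 hp).1]
  rw [h1]
  refine Finset.sum_le_sum_of_subset_of_nonneg ?_ ?_
  · intro p hp
    rw [Finset.mem_range]
    have := (mem_PP.1 hp).2
    omega
  · intro d _ _
    have := @ArithmeticFunction.vonMangoldt_nonneg d
    positivity

/-- one block of the tail -/
lemma block_le {y : ℕ} (hy : 3 ≤ y) (k : ℕ) (hk : 1 ≤ k) (F : Finset ℕ) (hF : ∀ p ∈ F, p.Prime ∧ y ^ k ≤ p ∧ p < y ^ (k + 1)) :
    ∑ p ∈ F, (p : ℝ) ^ (-(1 + 1 / Real.log y)) ≤ (Real.exp (-1)) ^ k * (2 + (Real.log 4 + 4)) := by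
  have hy0 : (3 : ℝ) ≤ y := by exact_mod_cast hy
  have hL : 1 ≤ Real.log y := by
    rw [Real.le_log_iff_exp_le (by linarith)]
    linarith [Real.exp_one_lt_d9]
  have hk0 : (1 : ℝ) ≤ k := by exact_mod_cast hk
  have h4 : 0 ≤ Real.log 4 := Real.log_nonneg (by norm_num)
  have hkL : 0 < k * Real.log y := by positivity
  have e1 : ∀ p ∈ F, (p : ℝ) ^ (-(1 + 1 / Real.log y)) ≤ (Real.exp (-1)) ^ k * (Real.log p / p / (k * Real.log y)) := by
    intro p hp
    obtain ⟨h1, h2, h3⟩ := hF p hp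
    have hp0 : (0 : ℝ) < p := by exact_mod_cast h1.pos
    have hlp : k * Real.log y ≤ Real.log p := by
      rw [← Real.log_pow]
      refine Real.log_le_log (by positivity) ?_
      exact_mod_cast h2
    have e2 : (p : ℝ) ^ (-(1 + 1 / Real.log y)) = (1 / p) * Real.exp (-(Real.log p / Real.log y)) := by
      rw [neg_add, Real.rpow_add hp0, Real.rpow_neg_one, Real.rpow_def_of_pos hp0 (-(1 / Real.log y)), one_div (p : ℝ)]
      congr 2
      ring
    rw [e2]
    have e3 : Real.exp (-(Real.log p / Real.log y)) ≤ (Real.exp (-1)) ^ k := by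
      rw [← Real.exp_nat_mul]
      apply Real.exp_le_exp.2
      have : (k : ℝ) ≤ Real.log p / Real.log y := by
        rw [le_div_iff₀ (by linarith)]; exact hlp
      linarith
    have e4 : (1 : ℝ) / p ≤ Real.log p / p / (k * Real.log y) := by
      rw [div_div, div_le_div_iff₀ hp0 (by positivity)]
      nlinarith
    calc 1 / (p : ℝ) * Real.exp (-(Real.log p / Real.log y)) ≤ (Real.log p / p / (k * Real.log y)) * (Real.exp (-1)) ^ k := by
          refine mul_le_mul e4 e3 (Real.exp_pos _).le (le_trans (by positivity) e4)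
      _ = _ := by ring
  refine (Finset.sum_le_sum e1).trans ?_
  rw [← Finset.mul_sum, ← Finset.sum_div]
  refine mul_le_mul_of_nonneg_left ?_ (by positivity)
  have e5 : ∑ p ∈ F, Real.log p / p ≤ ∑ p ∈ PP (y ^ (k + 1)), Real.log p / p := by
    refine Finset.sum_le_sum_of_subset_of_nonneg ?_ ?_
    · intro p hp
      exact mem_PP.2 ⟨(hF p hp).1, (hF p hp).2.2.le⟩
    · intro p hp _
      have : (1 : ℝ) ≤ p := by exact_mod_cast (mem_PP.1 hp).1.one_lt.le
      have := Real.log_nonneg this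
      positivity
  have e6 := logp_le (y := y ^ (k + 1)) (Nat.one_le_pow _ _ (by omega))
  rw [div_le_iff₀ hkL]
  push_cast at e6
  rw [Real.log_pow] at e6
  push_cast at e6
  have e7 : (k : ℝ) * Real.log y ≥ 1 := by nlinarith
  nlinarith [mul_nonneg (sub_nonneg.2 e7) (show 0 ≤ Real.log 4 + 4 by linarith)]

/-- the tail: `∑_{p > y} p^(-1-1/log y)` over any finite set of primes `> y` is bounded -/
lemma tail_le {y : ℕ} (hy : 3 ≤ y) (F : Finset ℕ) (hF : ∀ p ∈ F, p.Prime ∧ y < p) :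
    ∑ p ∈ F, (p : ℝ) ^ (-(1 + 1 / Real.log y)) ≤ 2 + (Real.log 4 + 4) := by
  have h4 : 0 ≤ Real.log 4 := Real.log_nonneg (by norm_num)
  set M := F.sup (fun p => Nat.log y p) + 1 with hM
  have e1 : ∀ p ∈ F, Nat.log y p - 1 ∈ Finset.range M := by
    intro p hp
    have := Finset.le_sup (f := fun p => Nat.log y p) hp
    rw [Finset.mem_range]
    omega
  rw [← Finset.sum_fiberwise_of_maps_to e1]
  have e2 : ∀ j ∈ Finset.range M, ∑ p ∈ F with Nat.log y p - 1 = j, (p : ℝ) ^ (-(1 + 1 / Real.log y)) ≤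
      (Real.exp (-1)) ^ (j + 1) * (2 + (Real.log 4 + 4)) := by
    intro j _
    refine block_le hy (j + 1) (by omega) _ ?_
    intro p hp
    rw [Finset.mem_filter] at hp
    obtain ⟨h1, h2⟩ := hF p hp.1
    have h3 : 1 ≤ Nat.log y p := Nat.log_pos (by omega) h2.le
    have h5 : Nat.log y p = j + 1 := by omega
    refine ⟨h1, ?_, ?_⟩
    · rw [← h5]; exact Nat.pow_log_le_self y (by omega)
    · rw [← h5]; exact Nat.lt_pow_succ_log_self (by omega) p
  refine (Finset.sum_le_sum e2).trans ?_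
  rw [← Finset.sum_mul]
  have h5 : Real.exp (-1) ≤ 1 / 2 := by
    rw [Real.exp_neg, one_div]
    refine inv_anti₀ (by norm_num) ?_
    linarith [Real.exp_one_gt_d9]
  have h6 : ∑ i ∈ Finset.range M, (Real.exp (-1)) ^ (i + 1) ≤ 1 := by
    have h7 : ∀ M : ℕ, ∑ i ∈ Finset.range M, ((1 : ℝ) / 2) ^ (i + 1) ≤ 1 - (1 / 2) ^ M := by
      intro M
      induction M with
      | zero => simp
      | succ M ih =>
        rw [Finset.sum_range_succ, pow_succ]
        linarith
    calc ∑ i ∈ Finset.range M, (Real.exp (-1)) ^ (i + 1) ≤ ∑ i ∈ Finset.range M, ((1 : ℝ) / 2) ^ (i + 1) :=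
          Finset.sum_le_sum fun i _ => pow_le_pow_left₀ (Real.exp_pos _).le h5 _
      _ ≤ 1 - (1 / 2) ^ M := h7 M
      _ ≤ 1 := by have : (0 : ℝ) ≤ (1 / 2) ^ M := by positivity
                  linarith
  calc _ ≤ 1 * (2 + (Real.log 4 + 4)) := mul_le_mul_of_nonneg_right h6 (by linarith)
    _ = _ := one_mul _

lemma log_factor {p : ℕ} (hp : p.Prime) {σ : ℝ} (t : ℝ) (hσ : 1 < σ) :
    |Real.log ‖(1 - (p : ℂ) ^ (-((σ : ℂ) + t * Complex.I)))⁻¹‖ - (p : ℝ) ^ (-σ) * Real.cos (t * Real.log p)| ≤ 1 / (p : ℝ) ^ 2 := by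
  have hp2 : (2 : ℝ) ≤ p := by exact_mod_cast hp.two_le
  have hp0 : (0 : ℝ) < p := by linarith
  set z : ℂ := (p : ℂ) ^ (-((σ : ℂ) + t * Complex.I)) with hz
  have hn : ‖z‖ = (p : ℝ) ^ (-σ) := by
    rw [hz, Complex.norm_natCast_cpow_of_pos hp.pos]
    simp
  have hn1 : ‖z‖ ≤ 1 / p := by
    rw [hn, one_div, ← Real.rpow_neg_one]
    exact Real.rpow_le_rpow_of_exponent_le (by linarith) (by linarith)
  have hn2 : ‖z‖ ≤ 1 / 2 := hn1.trans (one_div_le_one_div_of_le (by norm_num) hp2)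
  have hre : z.re = (p : ℝ) ^ (-σ) * Real.cos (t * Real.log p) := by
    have e1 : z = (((p : ℝ) ^ (-σ) : ℝ) : ℂ) * Complex.exp (((-(t * Real.log p) : ℝ) : ℂ) * Complex.I) := by
      rw [hz, neg_add, Complex.cpow_add _ _ (by exact_mod_cast hp0.ne')]
      congr 1
      · rw [Complex.ofReal_cpow hp0.le]
        push_cast
        rfl
      · rw [Complex.cpow_def_of_ne_zero (by exact_mod_cast hp0.ne'), ← Complex.ofReal_natCast p, ← Complex.ofReal_log hp0.le]
        congr 1
        push_cast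
        ring
    rw [e1, Complex.re_ofReal_mul, Complex.exp_ofReal_mul_I_re, Real.cos_neg]
  have h1 := Complex.norm_log_one_sub_inv_sub_self_le (z := z) (by linarith)
  have h2 : ‖z‖ ^ 2 * (1 - ‖z‖)⁻¹ / 2 ≤ 1 / (p : ℝ) ^ 2 := by
    have h3 : (1 - ‖z‖)⁻¹ ≤ 2 := by
      rw [inv_le_comm₀ (by linarith) (by norm_num)]
      linarith
    have h4 : ‖z‖ ^ 2 ≤ (1 / (p : ℝ)) ^ 2 := pow_le_pow_left₀ (norm_nonneg _) hn1 2
    rw [div_pow, one_pow] at h4
    have h5 : ‖z‖ ^ 2 * (1 - ‖z‖)⁻¹ ≤ ‖z‖ ^ 2 * 2 := mul_le_mul_of_nonneg_left h3 (by positivity)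
    linarith
  have h6 : (Complex.log (1 - z)⁻¹ - z).re = Real.log ‖(1 - z)⁻¹‖ - (p : ℝ) ^ (-σ) * Real.cos (t * Real.log p) := by
    rw [Complex.sub_re, Complex.log_re, hre]
  rw [← h6]
  exact (Complex.abs_re_le_norm _).trans (h1.trans h2)

/-- the sum of the reciprocals of the squares -/
noncomputable def C2 : ℝ := ∑' n : ℕ, 1 / (n : ℝ) ^ 2

lemma sum_sq_le (F : Finset ℕ) : ∑ p ∈ F, 1 / (p : ℝ) ^ 2 ≤ C2 := by
  have hs : Summable (fun n : ℕ => 1 / (n : ℝ) ^ 2) := Real.summable_one_div_nat_pow.2 (by norm_num)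
  exact hs.sum_le_tsum F (fun n _ => by positivity)

lemma C2_nonneg : 0 ≤ C2 := by
  have := sum_sq_le ∅
  simpa using this

/-- the first part -/
lemma head_le {y : ℕ} (hy : 3 ≤ y) (t : ℝ) :
    |∑ p ∈ PP y, (p : ℝ) ^ (-(1 + 1 / Real.log y)) * Real.cos (t * Real.log p) - ∑ p ∈ PP y, Real.cos (t * Real.log p) / p| ≤
      1 + (Real.log 4 + 4) := by
  have hy0 : (3 : ℝ) ≤ y := by exact_mod_cast hy
  have hL : 1 ≤ Real.log y := by
    rw [Real.le_log_iff_exp_le (by linarith)]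
    linarith [Real.exp_one_lt_d9]
  have h4 : 0 ≤ Real.log 4 := Real.log_nonneg (by norm_num)
  rw [← Finset.sum_sub_distrib]
  refine (Finset.abs_sum_le_sum_abs _ _).trans ?_
  have e1 : ∀ p ∈ PP y, |(p : ℝ) ^ (-(1 + 1 / Real.log y)) * Real.cos (t * Real.log p) - Real.cos (t * Real.log p) / p| ≤
      Real.log p / p / Real.log y := by
    intro p hp
    have hp1 := (mem_PP.1 hp).1
    have hp0 : (0 : ℝ) < p := by exact_mod_cast hp1.pos
    have hp1' : (1 : ℝ) ≤ p := by exact_mod_cast hp1.one_lt.le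
    have hlp := Real.log_nonneg hp1'
    have e2 : (p : ℝ) ^ (-(1 + 1 / Real.log y)) = (1 / p) * Real.exp (-(Real.log p / Real.log y)) := by
      rw [neg_add, Real.rpow_add hp0, Real.rpow_neg_one, Real.rpow_def_of_pos hp0 (-(1 / Real.log y)), one_div (p : ℝ)]
      congr 2
      ring
    rw [e2, show 1 / (p : ℝ) * Real.exp (-(Real.log p / Real.log y)) * Real.cos (t * Real.log p) - Real.cos (t * Real.log p) / p
      = -((1 / (p : ℝ)) * (1 - Real.exp (-(Real.log p / Real.log y))) * Real.cos (t * Real.log p)) by ring, abs_neg, abs_mul, abs_mul]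
    have h5 : 1 - Real.exp (-(Real.log p / Real.log y)) ≤ Real.log p / Real.log y := by
      have := Real.add_one_le_exp (-(Real.log p / Real.log y))
      linarith
    have h6 : 0 ≤ 1 - Real.exp (-(Real.log p / Real.log y)) := by
      have : Real.exp (-(Real.log p / Real.log y)) ≤ 1 := by
        apply Real.exp_le_one_iff.2
        have : 0 ≤ Real.log p / Real.log y := by positivity
        linarith
      linarith
    rw [abs_of_nonneg h6, abs_of_pos (by positivity : (0 : ℝ) < 1 / p)]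
    calc 1 / (p : ℝ) * (1 - Real.exp (-(Real.log p / Real.log y))) * |Real.cos (t * Real.log p)|
        ≤ 1 / (p : ℝ) * (1 - Real.exp (-(Real.log p / Real.log y))) * 1 := by
          refine mul_le_mul_of_nonneg_left (Real.abs_cos_le_one _) (by positivity)
      _ ≤ 1 / (p : ℝ) * (Real.log p / Real.log y) * 1 := by gcongr
      _ = _ := by ring
  refine (Finset.sum_le_sum e1).trans ?_
  rw [← Finset.sum_div, div_le_iff₀ (by linarith)]
  have := logp_le (y := y) (by omega)
  nlinarith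

/-- the constant of Theorem A -/
noncomputable def CA : ℝ := C2 + 3 + 2 * (Real.log 4 + 4)

lemma CA_nonneg : 0 ≤ CA := by
  unfold CA
  have := C2_nonneg
  have h4 : 0 ≤ Real.log 4 := Real.log_nonneg (by norm_num)
  linarith

/-- Theorem A: `log |ζ(1 + 1/log y + it)| = ∑_{p ≤ y} cos (t log p) / p + O(1)` -/
theorem zeta_near {y : ℕ} (hy : 3 ≤ y) (t : ℝ) :
    Real.exp (∑ p ∈ PP y, Real.cos (t * Real.log p) / p - CA) ≤ ‖riemannZeta (((1 + 1 / Real.log y : ℝ) : ℂ) + t * Complex.I)‖ ∧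
    ‖riemannZeta (((1 + 1 / Real.log y : ℝ) : ℂ) + t * Complex.I)‖ ≤ Real.exp (∑ p ∈ PP y, Real.cos (t * Real.log p) / p + CA) := by
  have hy0 : (3 : ℝ) ≤ y := by exact_mod_cast hy
  have hL : 1 ≤ Real.log y := by
    rw [Real.le_log_iff_exp_le (by linarith)]
    linarith [Real.exp_one_lt_d9]
  have h4 : 0 ≤ Real.log 4 := Real.log_nonneg (by norm_num)
  set σ : ℝ := 1 + 1 / Real.log y with hσ
  have hσ1 : 1 < σ := by
    have : 0 < 1 / Real.log y := by positivity
    linarith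
  have hre : 1 < ((σ : ℂ) + t * Complex.I).re := by simpa using hσ1
  have hlim := (riemannZeta_eulerProduct hre).norm
  set S := ∑ p ∈ PP y, Real.cos (t * Real.log p) / p with hS
  have key : ∀ n : ℕ, y < n → |Real.log ‖∏ p ∈ Nat.primesBelow n, (1 - (p : ℂ) ^ (-((σ : ℂ) + t * Complex.I)))⁻¹‖ - S| ≤ CA ∧
      0 < ‖∏ p ∈ Nat.primesBelow n, (1 - (p : ℂ) ^ (-((σ : ℂ) + t * Complex.I)))⁻¹‖ := by
    intro n hn
    have hmem : ∀ p ∈ Nat.primesBelow n, p.Prime := fun p hp => Nat.prime_of_mem_primesBelow hp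
    have hne : ∀ p ∈ Nat.primesBelow n, ‖(1 - (p : ℂ) ^ (-((σ : ℂ) + t * Complex.I)))⁻¹‖ ≠ 0 := by
      intro p hp h0
      rw [norm_eq_zero, inv_eq_zero, sub_eq_zero] at h0
      have h1 : ‖(p : ℂ) ^ (-((σ : ℂ) + t * Complex.I))‖ = 1 := by rw [← h0]; simp
      rw [Complex.norm_natCast_cpow_of_pos (hmem p hp).pos] at h1
      have h2 : (p : ℝ) ^ ((-((σ : ℂ) + t * Complex.I)).re) < 1 := by
        refine Real.rpow_lt_one_of_one_lt_of_neg (by exact_mod_cast (hmem p hp).one_lt) ?_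
        simp
        linarith
      linarith
    have hsub : PP y ⊆ Nat.primesBelow n := by
      intro p hp
      rw [mem_PP] at hp
      exact Nat.mem_primesBelow.2 ⟨by omega, hp.1⟩
    refine ⟨?_, ?_⟩
    · rw [norm_prod, Real.log_prod hne]
      have a1 : |∑ p ∈ Nat.primesBelow n, Real.log ‖(1 - (p : ℂ) ^ (-((σ : ℂ) + t * Complex.I)))⁻¹‖ -
          ∑ p ∈ Nat.primesBelow n, (p : ℝ) ^ (-σ) * Real.cos (t * Real.log p)| ≤ C2 := by
        rw [← Finset.sum_sub_distrib]
        refine (Finset.abs_sum_le_sum_abs _ _).trans ?_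
        refine (Finset.sum_le_sum fun p hp => log_factor (hmem p hp) t hσ1).trans (sum_sq_le _)
      have a2 := head_le hy t
      have a3 : |∑ p ∈ Nat.primesBelow n \ PP y, (p : ℝ) ^ (-σ) * Real.cos (t * Real.log p)| ≤ 2 + (Real.log 4 + 4) := by
        refine (Finset.abs_sum_le_sum_abs _ _).trans ?_
        refine le_trans (Finset.sum_le_sum fun p _ => ?_) (tail_le hy (Nat.primesBelow n \ PP y) ?_)
        · rw [abs_mul, abs_of_nonneg (by positivity : (0 : ℝ) ≤ (p : ℝ) ^ (-σ))]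
          exact mul_le_of_le_one_right (by positivity) (Real.abs_cos_le_one _)
        · intro p hp
          rw [Finset.mem_sdiff, mem_PP] at hp
          refine ⟨hmem p hp.1, ?_⟩
          by_contra h
          exact hp.2 ⟨hmem p hp.1, not_lt.1 h⟩
      have a4 := Finset.sum_sdiff hsub (f := fun p : ℕ => (p : ℝ) ^ (-σ) * Real.cos (t * Real.log p))
      unfold CA
      rw [abs_le] at a1 a2 a3 ⊢
      constructor <;> linarith [a1.1, a1.2, a2.1, a2.2, a3.1, a3.2]
    · rw [norm_prod]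
      exact Finset.prod_pos fun p hp => lt_of_le_of_ne (norm_nonneg _) (hne p hp).symm
  constructor
  · refine ge_of_tendsto hlim ?_
    filter_upwards [Filter.eventually_gt_atTop y] with n hn
    obtain ⟨h1, h2⟩ := key n hn
    rw [← Real.le_log_iff_exp_le h2]
    linarith [(abs_le.1 h1).1]
  · refine le_of_tendsto hlim ?_
    filter_upwards [Filter.eventually_gt_atTop y] with n hn
    obtain ⟨h1, h2⟩ := key n hn
    rw [← Real.log_le_iff_le_exp h2]
    linarith [(abs_le.1 h1).2]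

end Pool.Agent.Helper66.AF
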